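import Mathlib

set_option autoImplicit false
set_option linter.unusedSectionVars false

namespace Pool.Agent.Lib.MP_a30514_an

/-- an almost disjoint family of subsets of `ℕ`, indexed by the Cantor space -/
def AD (f : ℕ → Bool) : Set ℕ :=
  Set.range (fun n : ℕ => Encodable.encode (List.ofFn (fun i : Fin n => f i)))

lemma AD_inter (f g : ℕ → Bool) (hfg : f ≠ g) :
    ∃ N : ℕ, ∀ k, k ∈ AD f → k ∈ AD g → k < N := by
  obtain ⟨m, hm⟩ := Function.ne_iff.1 hfg
  set c : ℕ → ℕ := fun n => Encodable.encode (List.ofFn (fun i : Fin n => f i)) with hc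
  refine ⟨(Finset.range (m + 1)).sup c + 1, ?_⟩
  rintro k ⟨n, hn⟩ ⟨n', hn'⟩
  have h1 : Encodable.encode (List.ofFn (fun i : Fin n => f i)) =
      Encodable.encode (List.ofFn (fun i : Fin n' => g i)) := hn.trans hn'.symm
  have h2 := Encodable.encode_injective h1
  have h3 : n = n' := by
    have := congrArg List.length h2
    simpa using this
  subst h3
  have h4 : (fun i : Fin n => f i) = (fun i : Fin n => g i) := List.ofFn_injective h2
  have h5 : n ≤ m := by
    by_contra hlt
    push Not at hlt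
    exact hm (congrFun h4 ⟨m, hlt⟩)
  have h6 : c n ≤ (Finset.range (m + 1)).sup c :=
    Finset.le_sup (f := c) (Finset.mem_range.2 (by omega))
  have h7 : c n = k := hn
  omega

lemma AD_infinite (f : ℕ → Bool) : (AD f).Infinite := by
  apply Set.infinite_range_of_injective
  intro n n' h
  have h2 := Encodable.encode_injective h
  have := congrArg List.length h2
  simpa using this

lemma AD_injective : Function.Injective AD := by
  intro f g h
  by_contra hne
  obtain ⟨N, hN⟩ := AD_inter f g hne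
  apply AD_infinite f
  apply Set.Finite.subset (Set.finite_Iio N)
  intro k hk
  exact hN k hk (h ▸ hk)

lemma cantor_uncountable : ¬ (Set.univ : Set (ℕ → Bool)).Countable := by
  intro h
  have h1 : Countable (ℕ → Bool) := Set.countable_univ_iff.1 h
  have h2 : Function.Injective (fun s : Set ℕ => fun n : ℕ => (by classical exact decide (n ∈ s) : Bool)) := by
    intro s t hst
    ext n
    have := congrFun hst n
    simpa using this
  have h3 : Countable (Set ℕ) := h2.countable
  obtain ⟨g, hg⟩ := (countable_iff_exists_surjective (α := Set ℕ)).1 h3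
  exact Function.cantor_surjective g hg

/-- tails of the sets of the family -/
def tail (f : ℕ → Bool) (N : ℕ) : Set ℕ := {k | k ∈ AD f ∧ N ≤ k}

theorem small_finite {Ω : Type*} (r : Set ℕ → Ω → ℂ) (C : ℝ)
    (hsum : ∀ (K : ℕ) (T : Fin K → Set ℕ), (∀ i j, i ≠ j → Disjoint (T i) (T j)) →
      ∀ ω : Fin K → Ω, ∑ i, ‖r (T i) (ω i)‖ ≤ C) (q : ℝ) (hq : 0 < q) :
    {f : ℕ → Bool | ∀ N, ∃ ω, q < ‖r (tail f N) ω‖}.Finite := by
  classical
  by_contra hinf
  obtain ⟨K, hK⟩ := exists_nat_gt (C / q)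
  have hinf' : {f : ℕ → Bool | ∀ N, ∃ ω, q < ‖r (tail f N) ω‖}.Infinite := hinf
  obtain ⟨t, hts, htc⟩ := hinf'.exists_subset_card_eq K
  have e : Fin K ≃ t := (Fintype.equivFinOfCardEq (by simpa using htc)).symm
  have hne : ∀ i j : Fin K, i ≠ j → ((e i : t) : ℕ → Bool) ≠ (e j : t) := by
    intro i j hij h
    exact hij (e.injective (Subtype.ext h))
  choose! M hM using fun (p : Fin K × Fin K) (hp : p.1 ≠ p.2) => AD_inter _ _ (hne p.1 p.2 hp)
  set N : ℕ := Finset.univ.sup M with hN
  choose ω hω using fun i : Fin K => hts (e i).2 N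
  have h1 := hsum K (fun i => tail (e i) N) (by
    intro i j hij
    rw [Set.disjoint_left]
    intro k hk hk'
    have h1 := hM (i, j) hij k hk.1 hk'.1
    have h2 : M (i, j) ≤ N := Finset.le_sup (f := M) (Finset.mem_univ _)
    have := hk.2
    omega) ω
  have h2 : ∑ _i : Fin K, q ≤ ∑ i, ‖r (tail (e i) N) (ω i)‖ :=
    Finset.sum_le_sum fun i _ => (hω i).le
  rw [Finset.sum_const, Finset.card_univ, Fintype.card_fin, nsmul_eq_mul] at h2
  rw [div_lt_iff₀ hq] at hK
  linarith

/-- For countably many such set functions, all but countably many members of the family have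
uniformly small tails. -/
theorem small_countable {Ω : Type*} (r : ℕ → Set ℕ → Ω → ℂ) (C : ℝ)
    (hsum : ∀ (j K : ℕ) (T : Fin K → Set ℕ), (∀ i j, i ≠ j → Disjoint (T i) (T j)) →
      ∀ ω : Fin K → Ω, ∑ i, ‖r j (T i) (ω i)‖ ≤ C) :
    {f : ℕ → Bool | ¬ ∀ (j : ℕ) (q : ℝ), 0 < q → ∃ N, ∀ ω, ‖r j (tail f N) ω‖ ≤ q}.Countable := by
  have h : {f : ℕ → Bool | ¬ ∀ (j : ℕ) (q : ℝ), 0 < q → ∃ N, ∀ ω, ‖r j (tail f N) ω‖ ≤ q} ⊆
      ⋃ j : ℕ, ⋃ p : ℕ, {f : ℕ → Bool | ∀ N, ∃ ω, 1 / ((p : ℝ) + 1) < ‖r j (tail f N) ω‖} := by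
    intro f hf
    simp only [Set.mem_ofPred_eq] at hf
    push Not at hf
    obtain ⟨j, q, hq, hN⟩ := hf
    obtain ⟨p, hp⟩ := exists_nat_one_div_lt hq
    simp only [Set.mem_iUnion]
    refine ⟨j, p, fun N => ?_⟩
    obtain ⟨ω, hω⟩ := hN N
    exact ⟨ω, lt_trans hp hω⟩
  refine Set.Countable.mono h ?_
  refine Set.countable_iUnion fun j => Set.countable_iUnion fun p => ?_
  exact (small_finite (r j) C (hsum j) _ (by positivity)).countable

end Pool.Agent.Lib.MP_a30514_an
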