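import Mathlib

set_option autoImplicit false

namespace Pool.Agent.Lib.MP_a30514_an

universe u v w

section Algebra

variable (E : Type u) [NormedAddCommGroup E] [NormedSpace ℂ E]

/-- The compact operators on the complex normed space `E`, as a (non-unital) subalgebra of the
algebra of bounded operators. -/
def compactAlg : NonUnitalSubalgebra ℂ (E →L[ℂ] E) where
  carrier := {T | IsCompactOperator T}
  add_mem' hf hg := IsCompactOperator.add hf hg
  zero_mem' := isCompactOperator_zero
  mul_mem' hf _ := IsCompactOperator.comp_clm hf _
  smul_mem' c _ hf := IsCompactOperator.smul hf c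

/-- `K(E)`: the Banach algebra of all compact operators on `E`, with the operator norm. -/
def K : Type u := compactAlg E

/-- `K(E)` as a normed ring: composition of operators and the operator norm. -/
noncomputable instance K.ring : NonUnitalNormedRing (K E) :=
  NonUnitalSubalgebra.nonUnitalNormedRing (compactAlg E)

/-- `K(E)` as a complex vector space. -/
noncomputable instance K.module : Module ℂ (K E) :=
  NonUnitalSubalgebra.instModule' (S := compactAlg E)

/-- `K(E)` as a complex normed space, with the operator norm. -/
noncomputable instance K.space : NormedSpace ℂ (K E) where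
  norm_smul_le c T := norm_smul_le c (T : compactAlg E).val

instance K.tower : IsScalarTower ℂ (K E) (K E) :=
  inferInstanceAs (IsScalarTower ℂ (compactAlg E) (compactAlg E))

instance K.comm : SMulCommClass ℂ (K E) (K E) :=
  inferInstanceAs (SMulCommClass ℂ (compactAlg E) (compactAlg E))

instance K.complete [CompleteSpace E] : CompleteSpace (K E) := by
  have h : IsClosed {T : E →L[ℂ] E | IsCompactOperator T} :=
    isClosed_setOfPred_isCompactOperator
  exact h.completeSpace_coe

end Algebra

section Modules

/-- A Banach left module structure over the Banach algebra `A` (no unit is assumed in `A`) on the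
Banach space `X`: a bounded bilinear action `act a x = a • x` with `(a b) • x = a • (b • x)`. -/
structure LeftModule (A : Type u) [NonUnitalNormedRing A] [NormedSpace ℂ A]
    (X : Type v) [NormedAddCommGroup X] [NormedSpace ℂ X] where
  /-- the action `a • x` -/
  act : A → X → X
  add_act : ∀ a b x, act (a + b) x = act a x + act b x
  act_add : ∀ a x y, act a (x + y) = act a x + act a y
  smul_act : ∀ (c : ℂ) a x, act (c • a) x = c • act a x
  act_smul : ∀ (c : ℂ) a x, act a (c • x) = c • act a x
  mul_act : ∀ a b x, act (a * b) x = act a (act b x)
  bound : ∃ C : ℝ, ∀ a x, ‖act a x‖ ≤ C * ‖a‖ * ‖x‖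

/-- A Banach right module structure over the Banach algebra `A` on the Banach space `X`: a bounded
bilinear action `act x a = x • a` with `x • (a b) = (x • a) • b`. -/
structure RightModule (A : Type u) [NonUnitalNormedRing A] [NormedSpace ℂ A]
    (X : Type v) [NormedAddCommGroup X] [NormedSpace ℂ X] where
  /-- the action `x • a` -/
  act : X → A → X
  add_act : ∀ x y a, act (x + y) a = act x a + act y a
  act_add : ∀ x a b, act x (a + b) = act x a + act x b
  smul_act : ∀ (c : ℂ) x a, act (c • x) a = c • act x a
  act_smul : ∀ (c : ℂ) x a, act x (c • a) = c • act x a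
  act_mul : ∀ x a b, act x (a * b) = act (act x a) b
  bound : ∃ C : ℝ, ∀ x a, ‖act x a‖ ≤ C * ‖x‖ * ‖a‖

/-- `s` is a right inverse of `φ`: `φ (s x) = x` for all `x`. -/
def IsSection {X : Type v} {Y : Type w} [NormedAddCommGroup X] [NormedSpace ℂ X]
    [NormedAddCommGroup Y] [NormedSpace ℂ Y] (φ : Y →L[ℂ] X) (s : X →L[ℂ] Y) : Prop :=
  ∀ x, φ (s x) = x

variable {A : Type u} [NonUnitalNormedRing A] [NormedSpace ℂ A]
  {X : Type v} [NormedAddCommGroup X] [NormedSpace ℂ X]

/-- The bounded linear map `φ` is a morphism of Banach left modules: `φ (a • x) = a • φ x`. -/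
def LeftModule.IsMorphism (M : LeftModule A X) {Y : Type w} [NormedAddCommGroup Y]
    [NormedSpace ℂ Y] (N : LeftModule A Y) (φ : X →L[ℂ] Y) : Prop :=
  ∀ a x, φ (M.act a x) = N.act a (φ x)

/-- The bounded linear map `φ` is a morphism of Banach right modules: `φ (x • a) = φ x • a`. -/
def RightModule.IsMorphism (M : RightModule A X) {Y : Type w} [NormedAddCommGroup Y]
    [NormedSpace ℂ Y] (N : RightModule A Y) (φ : X →L[ℂ] Y) : Prop :=
  ∀ x a, φ (M.act x a) = N.act (φ x) a

/-- The Banach left module `X` (with module structure `M`) is projective: every morphism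
`φ : Y → X` of Banach left modules that has a bounded linear right inverse has a right inverse that
is a morphism of Banach left modules. -/
def LeftModule.IsProjective (M : LeftModule A X) : Prop :=
  ∀ (Y : Type w) [NormedAddCommGroup Y] [NormedSpace ℂ Y] [CompleteSpace Y]
    (N : LeftModule A Y) (φ : Y →L[ℂ] X), N.IsMorphism M φ → (∃ s, IsSection φ s) →
      ∃ ρ, M.IsMorphism N ρ ∧ IsSection φ ρ

/-- The Banach right module `X` (with module structure `M`) is projective: every morphism
`φ : Y → X` of Banach right modules that has a bounded linear right inverse has a right inverse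
that is a morphism of Banach right modules. -/
def RightModule.IsProjective (M : RightModule A X) : Prop :=
  ∀ (Y : Type w) [NormedAddCommGroup Y] [NormedSpace ℂ Y] [CompleteSpace Y]
    (N : RightModule A Y) (φ : Y →L[ℂ] X), N.IsMorphism M φ → (∃ s, IsSection φ s) →
      ∃ ρ, M.IsMorphism N ρ ∧ IsSection φ ρ

variable (A) [IsScalarTower ℂ A A] [SMulCommClass ℂ A A]

/-- The Banach algebra `A` as a Banach left module over itself, by left multiplication. -/
def leftRegular : LeftModule A A where
  act a x := a * x
  add_act a b x := add_mul a b x
  act_add a x y := mul_add a x y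
  smul_act c a x := smul_mul_assoc c a x
  act_smul c a x := mul_smul_comm c a x
  mul_act a b x := mul_assoc a b x
  bound := ⟨1, fun a x => by rw [one_mul]; exact norm_mul_le a x⟩

/-- The Banach algebra `A` as a Banach right module over itself, by right multiplication. -/
def rightRegular : RightModule A A where
  act x a := x * a
  add_act x y a := add_mul x y a
  act_add x a b := mul_add x a b
  smul_act c x a := smul_mul_assoc c x a
  act_smul c x a := mul_smul_comm c x a
  act_mul x a b := (mul_assoc x a b).symm
  bound := ⟨1, fun x a => by rw [one_mul]; exact norm_mul_le x a⟩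

end Modules

section Spaces

open scoped ENNReal

/-- the complex Banach space `ℓ¹(ℕ)` -/
def EllOne : Type := lp (fun _ : ℕ => ℂ) 1

noncomputable instance EllOne.group : NormedAddCommGroup EllOne := lp.normedAddCommGroup
noncomputable instance EllOne.space : NormedSpace ℂ EllOne := lp.instNormedSpace
instance EllOne.complete : CompleteSpace EllOne :=
  inferInstanceAs (CompleteSpace (lp (fun _ : ℕ => ℂ) 1))

/-- the complex Banach space `ℓ^∞(ℕ)` -/
def EllInf : Type := lp (fun _ : ℕ => ℂ) ∞

noncomputable instance EllInf.group : NormedAddCommGroup EllInf := lp.normedAddCommGroup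
noncomputable instance EllInf.space : NormedSpace ℂ EllInf := lp.instNormedSpace
instance EllInf.complete : CompleteSpace EllInf :=
  inferInstanceAs (CompleteSpace (lp (fun _ : ℕ => ℂ) ∞))

end Spaces

end Pool.Agent.Lib.MP_a30514_an
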