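import Mathlib
import Pool.Agent.Lib.MP_a30514_an.Defs

set_option autoImplicit false
set_option linter.unusedSectionVars false

namespace Pool.Agent.Lib.MP_a30514_an

universe u v w

section Tensor

variable (A : Type u) [NonUnitalNormedRing A] [NormedSpace ℂ A]

/-- the Banach space of bounded bilinear forms on `A × A` -/
def Bil : Type u := A →L[ℂ] A →L[ℂ] ℂ

noncomputable instance : NormedAddCommGroup (Bil A) :=
  inferInstanceAs (NormedAddCommGroup (A →L[ℂ] A →L[ℂ] ℂ))

noncomputable instance : NormedSpace ℂ (Bil A) :=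
  inferInstanceAs (NormedSpace ℂ (A →L[ℂ] A →L[ℂ] ℂ))

/-- the dual of the space of bounded bilinear forms -/
abbrev D : Type u := Bil A →L[ℂ] ℂ

variable {A}

/-- evaluation of a bilinear form -/
noncomputable def Bil.ev (β : Bil A) (a b : A) : ℂ := (show A →L[ℂ] A →L[ℂ] ℂ from β) a b

/-- build a bilinear form from an iterated continuous linear map -/
def Bil.mk (β : A →L[ℂ] A →L[ℂ] ℂ) : Bil A := β

@[simp] lemma Bil.ev_mk (β : A →L[ℂ] A →L[ℂ] ℂ) (a b : A) : (Bil.mk β).ev a b = β a b := rfl

@[simp] lemma Bil.ev_add (β γ : Bil A) (a b : A) : (β + γ).ev a b = β.ev a b + γ.ev a b := rfl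
@[simp] lemma Bil.ev_sub (β γ : Bil A) (a b : A) : (β - γ).ev a b = β.ev a b - γ.ev a b := rfl
@[simp] lemma Bil.ev_smul (c : ℂ) (β : Bil A) (a b : A) : (c • β).ev a b = c * β.ev a b := rfl

lemma Bil.ev_sum {ι : Type*} (s : Finset ι) (β : ι → Bil A) (a b : A) :
    (∑ i ∈ s, β i).ev a b = ∑ i ∈ s, (β i).ev a b := by
  classical
  induction s using Finset.induction_on with
  | empty => rfl
  | insert x s hx ih => rw [Finset.sum_insert hx, Finset.sum_insert hx, Bil.ev_add, ih]

@[simp] lemma Bil.ev_add_left (β : Bil A) (a a' b : A) :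
    β.ev (a + a') b = β.ev a b + β.ev a' b := by
  simp [Bil.ev]
@[simp] lemma Bil.ev_add_right (β : Bil A) (a b b' : A) :
    β.ev a (b + b') = β.ev a b + β.ev a b' := by
  simp [Bil.ev]
@[simp] lemma Bil.ev_smul_left (β : Bil A) (c : ℂ) (a b : A) :
    β.ev (c • a) b = c * β.ev a b := by
  simp [Bil.ev]
@[simp] lemma Bil.ev_smul_right (β : Bil A) (c : ℂ) (a b : A) :
    β.ev a (c • b) = c * β.ev a b := by
  simp [Bil.ev]

lemma Bil.ext {β γ : Bil A} (h : ∀ a b, β.ev a b = γ.ev a b) : β = γ :=
  ContinuousLinearMap.ext fun a => ContinuousLinearMap.ext fun b => h a b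

lemma Bil.norm_ev_le (β : Bil A) (a b : A) : ‖β.ev a b‖ ≤ ‖β‖ * ‖a‖ * ‖b‖ :=
  ContinuousLinearMap.le_opNorm₂ (show A →L[ℂ] A →L[ℂ] ℂ from β) a b

lemma Bil.norm_le (β : Bil A) (C : ℝ) (hC : 0 ≤ C)
    (h : ∀ a b, ‖β.ev a b‖ ≤ C * ‖a‖ * ‖b‖) : ‖β‖ ≤ C :=
  ContinuousLinearMap.opNorm_le_bound₂ (show A →L[ℂ] A →L[ℂ] ℂ from β) hC h

/-- elementary tensors as functionals on bilinear forms -/
noncomputable def tens (a b : A) : D A :=
  LinearMap.mkContinuous
    { toFun := fun β => β.ev a b
      map_add' := fun β γ => by simp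
      map_smul' := fun c β => by simp } (‖a‖ * ‖b‖) (fun β => by
        have h := β.norm_ev_le a b
        change ‖β.ev a b‖ ≤ _
        linarith [mul_comm (‖a‖ * ‖b‖) ‖β‖, mul_assoc ‖β‖ ‖a‖ ‖b‖])

@[simp] lemma tens_apply (a b : A) (β : Bil A) : tens a b β = β.ev a b := rfl

lemma norm_tens_le (a b : A) : ‖tens a b‖ ≤ ‖a‖ * ‖b‖ :=
  LinearMap.mkContinuous_norm_le _ (by positivity) _

variable [IsScalarTower ℂ A A] [SMulCommClass ℂ A A]

/-- `pre c β (a, b) = β (c a, b)` -/
noncomputable def pre (c : A) (β : Bil A) : Bil A :=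
  Bil.mk ((show A →L[ℂ] A →L[ℂ] ℂ from β).comp (ContinuousLinearMap.mul ℂ A c))

@[simp] lemma pre_ev (c : A) (β : Bil A) (a b : A) : (pre c β).ev a b = β.ev (c * a) b := rfl

/-- `post c β (a, b) = β (a, b c)` -/
noncomputable def post (c : A) (β : Bil A) : Bil A :=
  Bil.mk ((ContinuousLinearMap.compL ℂ A A ℂ).flip ((ContinuousLinearMap.mul ℂ A).flip c) ∘L
    (show A →L[ℂ] A →L[ℂ] ℂ from β))

@[simp] lemma post_ev (c : A) (β : Bil A) (a b : A) : (post c β).ev a b = β.ev a (b * c) := rfl

lemma norm_pre_le (c : A) (β : Bil A) : ‖pre c β‖ ≤ ‖c‖ * ‖β‖ := by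
  refine Bil.norm_le _ _ (by positivity) fun a b => ?_
  rw [pre_ev]
  refine (β.norm_ev_le _ _).trans ?_
  have := norm_mul_le c a
  have h2 : ‖β‖ * ‖c * a‖ * ‖b‖ ≤ ‖β‖ * (‖c‖ * ‖a‖) * ‖b‖ := by gcongr
  linarith [mul_comm ‖c‖ ‖β‖, mul_assoc ‖β‖ ‖c‖ ‖a‖, mul_assoc (‖β‖ * ‖c‖) ‖a‖ ‖b‖]

lemma norm_post_le (c : A) (β : Bil A) : ‖post c β‖ ≤ ‖c‖ * ‖β‖ := by
  refine Bil.norm_le _ _ (by positivity) fun a b => ?_
  rw [post_ev]
  refine (β.norm_ev_le _ _).trans ?_
  have := norm_mul_le b c
  have h2 : ‖β‖ * ‖a‖ * ‖b * c‖ ≤ ‖β‖ * ‖a‖ * (‖b‖ * ‖c‖) := by gcongr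
  nlinarith

/-- left action on the dual of the bilinear forms -/
noncomputable def lact (c : A) (F : D A) : D A :=
  LinearMap.mkContinuous
    { toFun := fun β => F (pre c β)
      map_add' := fun β γ => by
        rw [← map_add]; rfl
      map_smul' := fun r β => by
        rw [RingHom.id_apply, ← map_smul]; rfl } (‖c‖ * ‖F‖) (fun β => by
        change ‖F (pre c β)‖ ≤ _
        have h1 := F.le_opNorm (pre c β)
        have h2 := norm_pre_le c β
        have h3 : ‖F‖ * ‖pre c β‖ ≤ ‖F‖ * (‖c‖ * ‖β‖) := by gcongr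
        nlinarith)

@[simp] lemma lact_apply (c : A) (F : D A) (β : Bil A) : lact c F β = F (pre c β) := rfl

lemma norm_lact_le (c : A) (F : D A) : ‖lact c F‖ ≤ ‖c‖ * ‖F‖ :=
  LinearMap.mkContinuous_norm_le _ (by positivity) _

/-- right action on the dual of the bilinear forms -/
noncomputable def ract (c : A) (F : D A) : D A :=
  LinearMap.mkContinuous
    { toFun := fun β => F (post c β)
      map_add' := fun β γ => by
        rw [← map_add]
        congr 1
      map_smul' := fun r β => by
        rw [RingHom.id_apply, ← map_smul]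
        congr 1 } (‖c‖ * ‖F‖) (fun β => by
        change ‖F (post c β)‖ ≤ _
        have h1 := F.le_opNorm (post c β)
        have h2 := norm_post_le c β
        have h3 : ‖F‖ * ‖post c β‖ ≤ ‖F‖ * (‖c‖ * ‖β‖) := by gcongr
        nlinarith)

@[simp] lemma ract_apply (c : A) (F : D A) (β : Bil A) : ract c F β = F (post c β) := rfl

lemma norm_ract_le (c : A) (F : D A) : ‖ract c F‖ ≤ ‖c‖ * ‖F‖ :=
  LinearMap.mkContinuous_norm_le _ (by positivity) _

lemma tens_add_left (a a' b : A) : tens (a + a') b = tens a b + tens a' b := by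
  ext β; simp

lemma tens_add_right (a b b' : A) : tens a (b + b') = tens a b + tens a b' := by
  ext β; simp

lemma tens_smul_left (c : ℂ) (a b : A) : tens (c • a) b = c • tens a b := by
  ext β; simp

lemma tens_smul_right (c : ℂ) (a b : A) : tens a (c • b) = c • tens a b := by
  ext β; simp

lemma lact_tens (c a b : A) : lact c (tens a b) = tens (c * a) b := by
  ext β; simp

lemma ract_tens (c a b : A) : ract c (tens a b) = tens a (b * c) := by
  ext β; simp

lemma lact_mul (c d : A) (F : D A) : lact (c * d) F = lact c (lact d F) := by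
  ext β
  simp only [lact_apply]
  congr 1
  exact Bil.ext fun a b => by simp [mul_assoc]

lemma ract_mul (c d : A) (F : D A) : ract (c * d) F = ract d (ract c F) := by
  ext β
  simp only [ract_apply]
  congr 1
  exact Bil.ext fun a b => by simp [mul_assoc]

lemma lact_add_left (c c' : A) (F : D A) : lact (c + c') F = lact c F + lact c' F := by
  ext β
  simp only [lact_apply, _root_.add_apply, ← map_add]
  congr 1
  exact Bil.ext fun a b => by simp [add_mul]

lemma lact_smul_left (r : ℂ) (c : A) (F : D A) : lact (r • c) F = r • lact c F := by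
  ext β
  simp only [lact_apply, _root_.smul_apply, ← map_smul]
  congr 1
  exact Bil.ext fun a b => by simp [smul_mul_assoc]

lemma ract_add_left (c c' : A) (F : D A) : ract (c + c') F = ract c F + ract c' F := by
  ext β
  simp only [ract_apply, _root_.add_apply, ← map_add]
  congr 1
  exact Bil.ext fun a b => by simp [mul_add]

lemma ract_smul_left (r : ℂ) (c : A) (F : D A) : ract (r • c) F = r • ract c F := by
  ext β
  simp only [ract_apply, _root_.smul_apply, ← map_smul]
  congr 1
  exact Bil.ext fun a b => by simp [mul_smul_comm]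

lemma lact_add_right (c : A) (F F' : D A) : lact c (F + F') = lact c F + lact c F' := by
  ext β; simp

lemma lact_smul_right (c : A) (r : ℂ) (F : D A) : lact c (r • F) = r • lact c F := by
  ext β; simp

lemma ract_add_right (c : A) (F F' : D A) : ract c (F + F') = ract c F + ract c F' := by
  ext β; simp

lemma ract_smul_right (c : A) (r : ℂ) (F : D A) : ract c (r • F) = r • ract c F := by
  ext β; simp

variable (A)

/-- the projective tensor product, together with the product map: the closed span of the vectors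
`(a ⊗ b, a b)` -/
noncomputable def P : Submodule ℂ (D A × A) :=
  (Submodule.span ℂ (Set.range fun p : A × A => (tens p.1 p.2, p.1 * p.2))).topologicalClosure

variable {A}

lemma gen_mem (a b : A) : ((tens a b, a * b) : D A × A) ∈ P A :=
  Submodule.le_topologicalClosure _ (Submodule.subset_span ⟨(a, b), rfl⟩)

instance [CompleteSpace A] : CompleteSpace (P A) :=
  (Submodule.isClosed_topologicalClosure _).completeSpace_coe

/-- sums of elementary tensors -/
noncomputable def tsumL (l : List (A × A)) : D A := (l.map fun p => tens p.1 p.2).sum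

noncomputable def psumL (l : List (A × A)) : A := (l.map fun p => p.1 * p.2).sum

lemma span_list (x : D A × A)
    (hx : x ∈ Submodule.span ℂ (Set.range fun p : A × A => (tens p.1 p.2, p.1 * p.2))) :
    ∃ l : List (A × A), x = (tsumL l, psumL l) := by
  induction hx using Submodule.span_induction with
  | mem x hx =>
    obtain ⟨p, rfl⟩ := hx
    exact ⟨[p], by simp [tsumL, psumL]⟩
  | zero => exact ⟨[], rfl⟩
  | add x y _ _ hx hy =>
    obtain ⟨l, rfl⟩ := hx
    obtain ⟨l', rfl⟩ := hy
    exact ⟨l ++ l', by simp [tsumL, psumL]⟩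
  | smul c x _ hx =>
    obtain ⟨l, rfl⟩ := hx
    refine ⟨l.map fun p => (c • p.1, p.2), ?_⟩
    have h1 : c • tsumL l = tsumL (l.map fun p => (c • p.1, p.2)) := by
      simp only [tsumL, List.map_map]
      rw [List.smul_sum, List.map_map]
      congr 1
      refine List.map_congr_left fun p _ => ?_
      simp [tens_smul_left]
    have h2 : c • psumL l = psumL (l.map fun p => (c • p.1, p.2)) := by
      simp only [psumL, List.map_map]
      rw [List.smul_sum, List.map_map]
      congr 1
      refine List.map_congr_left fun p _ => ?_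
      simp [smul_mul_assoc]
    rw [Prod.smul_mk, h1, h2]

lemma approx (x : D A × A) (hx : x ∈ P A) (ε : ℝ) (hε : 0 < ε) :
    ∃ l : List (A × A), ‖x.1 - tsumL l‖ < ε ∧ ‖x.2 - psumL l‖ < ε := by
  have hx' : x ∈ closure ((Submodule.span ℂ
      (Set.range fun p : A × A => (tens p.1 p.2, p.1 * p.2)) : Submodule ℂ (D A × A)) :
      Set (D A × A)) := hx
  rw [Metric.mem_closure_iff] at hx'
  obtain ⟨y, hy, hxy⟩ := hx' ε hε
  obtain ⟨l, rfl⟩ := span_list y hy
  rw [dist_eq_norm] at hxy
  refine ⟨l, lt_of_le_of_lt ?_ hxy, lt_of_le_of_lt ?_ hxy⟩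
  · exact norm_fst_le (x - (tsumL l, psumL l))
  · exact norm_snd_le (x - (tsumL l, psumL l))

/-- left action on `D A × A` -/
noncomputable def lactW (c : A) : (D A × A) →L[ℂ] (D A × A) :=
  LinearMap.mkContinuous
    { toFun := fun x => (lact c x.1, c * x.2)
      map_add' := fun x y => by simp [lact_add_right, mul_add]
      map_smul' := fun r x => by simp [lact_smul_right, mul_smul_comm] } ‖c‖ (fun x => by
        change ‖(lact c x.1, c * x.2)‖ ≤ _
        rw [Prod.norm_def]
        apply max_le
        · refine (norm_lact_le c x.1).trans ?_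
          gcongr
          exact norm_fst_le x
        · refine (norm_mul_le c x.2).trans ?_
          gcongr
          exact norm_snd_le x)

noncomputable def ractW (c : A) : (D A × A) →L[ℂ] (D A × A) :=
  LinearMap.mkContinuous
    { toFun := fun x => (ract c x.1, x.2 * c)
      map_add' := fun x y => by simp [ract_add_right, add_mul]
      map_smul' := fun r x => by simp [ract_smul_right, smul_mul_assoc] } ‖c‖ (fun x => by
        change ‖(ract c x.1, x.2 * c)‖ ≤ _
        rw [Prod.norm_def]
        apply max_le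
        · refine (norm_ract_le c x.1).trans ?_
          gcongr
          exact norm_fst_le x
        · refine (norm_mul_le x.2 c).trans ?_
          rw [mul_comm]
          gcongr
          exact norm_snd_le x)

lemma lactW_apply (c : A) (x : D A × A) : lactW c x = (lact c x.1, c * x.2) := rfl
lemma ractW_apply (c : A) (x : D A × A) : ractW c x = (ract c x.1, x.2 * c) := rfl

lemma norm_lactW_le (c : A) (x : D A × A) : ‖lactW c x‖ ≤ ‖c‖ * ‖x‖ := by
  refine ((lactW c).le_opNorm x).trans ?_
  gcongr
  exact LinearMap.mkContinuous_norm_le _ (norm_nonneg _) _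

lemma norm_ractW_le (c : A) (x : D A × A) : ‖ractW c x‖ ≤ ‖c‖ * ‖x‖ := by
  refine ((ractW c).le_opNorm x).trans ?_
  gcongr
  exact LinearMap.mkContinuous_norm_le _ (norm_nonneg _) _

lemma closure_map_mem (f : (D A × A) →L[ℂ] (D A × A))
    (hf : ∀ a b : A, f (tens a b, a * b) ∈ P A) (x : D A × A) (hx : x ∈ P A) : f x ∈ P A := by
  have h1 : Submodule.span ℂ (Set.range fun p : A × A => ((tens p.1 p.2, p.1 * p.2) : D A × A)) ≤
      (P A).comap (f : (D A × A) →ₗ[ℂ] (D A × A)) := by
    rw [Submodule.span_le]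
    rintro _ ⟨p, rfl⟩
    exact hf p.1 p.2
  have h2 : P A ≤ (P A).comap (f : (D A × A) →ₗ[ℂ] (D A × A)) := by
    refine Submodule.topologicalClosure_minimal _ h1 ?_
    exact (Submodule.isClosed_topologicalClosure _).preimage f.continuous
  exact h2 hx

lemma lactW_mem (c : A) (x : D A × A) (hx : x ∈ P A) : lactW c x ∈ P A := by
  refine closure_map_mem _ (fun a b => ?_) x hx
  have : lactW c (tens a b, a * b) = (tens (c * a) b, (c * a) * b) := by
    simp [lactW_apply, lact_tens, mul_assoc]
  rw [this]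
  exact gen_mem _ _

lemma ractW_mem (c : A) (x : D A × A) (hx : x ∈ P A) : ractW c x ∈ P A := by
  refine closure_map_mem _ (fun a b => ?_) x hx
  have : ractW c (tens a b, a * b) = (tens a (b * c), a * (b * c)) := by
    simp [ractW_apply, ract_tens, mul_assoc]
  rw [this]
  exact gen_mem _ _

end Tensor

end Pool.Agent.Lib.MP_a30514_an
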