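import Mathlib
import Pool.Agent.Lib.MP_a30514_an.Tensor

set_option autoImplicit false
set_option linter.unusedSectionVars false

namespace Pool.Agent.Lib.MP_a30514_an

universe u v w

variable (A : Type u) [NonUnitalNormedRing A] [NormedSpace ℂ A] [IsScalarTower ℂ A A]
  [SMulCommClass ℂ A A]

variable {A} in
lemma tens_zero_right (a : A) : tens a 0 = 0 := by
  ext β
  have h := β.ev_smul_right 0 a 0
  rw [zero_smul, zero_mul] at h
  simpa using h

variable {A} in
lemma tens_zero_left (a : A) : tens 0 a = 0 := by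
  ext β
  have h := β.ev_smul_left 0 0 a
  rw [zero_smul, zero_mul] at h
  simpa using h

/-- the left action on `A × P A` (a model of `A₊ ⊗̂ A`) -/
noncomputable def leftLin : A →ₗ[ℂ] (A × P A) →ₗ[ℂ] (A × P A) :=
  LinearMap.mk₂ ℂ
      (fun (c : A) (y : A × P A) => ((0 : A), (⟨(tens c y.1, c * y.1), gen_mem c y.1⟩ : P A)
        + (⟨lactW c y.2, lactW_mem c _ y.2.2⟩ : P A)))
      (fun c c' y => by
        refine Prod.ext (by simp) (Subtype.ext ?_)
        refine Prod.ext ?_ ?_
        · simp [lactW_apply, tens_add_left, lact_add_left]; abel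
        · simp [lactW_apply, add_mul]; abel)
      (fun r c y => by
        refine Prod.ext (by simp) (Subtype.ext ?_)
        refine Prod.ext ?_ ?_
        · simp [lactW_apply, tens_smul_left, lact_smul_left]
        · simp [lactW_apply, smul_mul_assoc])
      (fun c y y' => by
        refine Prod.ext (by simp) (Subtype.ext ?_)
        refine Prod.ext ?_ ?_
        · simp [lactW_apply, tens_add_right, lact_add_right]; abel
        · simp [lactW_apply, mul_add]; abel)
      (fun r c y => by
        refine Prod.ext (by simp) (Subtype.ext ?_)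
        refine Prod.ext ?_ ?_
        · simp [lactW_apply, tens_smul_right]
        · simp [lactW_apply, mul_smul_comm])

lemma leftLin_apply (c : A) (y : A × P A) :
    leftLin A c y = ((0 : A), (⟨(tens c y.1, c * y.1), gen_mem c y.1⟩ : P A)
        + (⟨lactW c y.2, lactW_mem c _ y.2.2⟩ : P A)) := rfl

/-- the right action on `A × P A` (a model of `A ⊗̂ A₊`) -/
noncomputable def rightLin : A →ₗ[ℂ] (A × P A) →ₗ[ℂ] (A × P A) :=
  LinearMap.mk₂ ℂ
      (fun (c : A) (y : A × P A) => ((0 : A), (⟨(tens y.1 c, y.1 * c), gen_mem y.1 c⟩ : P A)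
        + (⟨ractW c y.2, ractW_mem c _ y.2.2⟩ : P A)))
      (fun c c' y => by
        refine Prod.ext (by simp) (Subtype.ext ?_)
        refine Prod.ext ?_ ?_
        · simp [ractW_apply, tens_add_right, ract_add_left]; abel
        · simp [ractW_apply, mul_add]; abel)
      (fun r c y => by
        refine Prod.ext (by simp) (Subtype.ext ?_)
        refine Prod.ext ?_ ?_
        · simp [ractW_apply, tens_smul_right, ract_smul_left]
        · simp [ractW_apply, mul_smul_comm])
      (fun c y y' => by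
        refine Prod.ext (by simp) (Subtype.ext ?_)
        refine Prod.ext ?_ ?_
        · simp [ractW_apply, tens_add_left, ract_add_right]; abel
        · simp [ractW_apply, add_mul]; abel)
      (fun r c y => by
        refine Prod.ext (by simp) (Subtype.ext ?_)
        refine Prod.ext ?_ ?_
        · simp [ractW_apply, tens_smul_left]
        · simp [ractW_apply, smul_mul_assoc])

lemma rightLin_apply (c : A) (y : A × P A) :
    rightLin A c y = ((0 : A), (⟨(tens y.1 c, y.1 * c), gen_mem y.1 c⟩ : P A)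
        + (⟨ractW c y.2, ractW_mem c _ y.2.2⟩ : P A)) := rfl

lemma leftLin_bound (c : A) (y : A × P A) : ‖leftLin A c y‖ ≤ 2 * ‖c‖ * ‖y‖ := by
  rw [leftLin_apply, Prod.norm_def]
  have h1 : ‖y.1‖ ≤ ‖y‖ := norm_fst_le y
  have h2 : ‖y.2‖ ≤ ‖y‖ := norm_snd_le y
  apply max_le
  · have h0 : ‖(0 : A)‖ = 0 := norm_zero
    refine h0.le.trans ?_
    positivity
  · refine le_trans (norm_add_le (E := P A) _ _) ?_
    have e1 : ‖(⟨(tens c y.1, c * y.1), gen_mem c y.1⟩ : P A)‖ ≤ ‖c‖ * ‖y‖ := by
      change ‖((tens c y.1, c * y.1) : D A × A)‖ ≤ _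
      rw [Prod.norm_def]
      apply max_le
      · refine (norm_tens_le c y.1).trans ?_
        gcongr
      · refine (norm_mul_le c y.1).trans ?_
        gcongr
    have e2 : ‖(⟨lactW c y.2, lactW_mem c _ y.2.2⟩ : P A)‖ ≤ ‖c‖ * ‖y‖ := by
      change ‖lactW c (y.2 : D A × A)‖ ≤ _
      refine (norm_lactW_le c _).trans ?_
      gcongr
      exact h2
    have e3 : 2 * ‖c‖ * ‖y‖ = ‖c‖ * ‖y‖ + ‖c‖ * ‖y‖ := by ring
    rw [e3]
    exact add_le_add e1 e2

lemma rightLin_bound (c : A) (y : A × P A) : ‖rightLin A c y‖ ≤ 2 * ‖c‖ * ‖y‖ := by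
  rw [rightLin_apply, Prod.norm_def]
  have h1 : ‖y.1‖ ≤ ‖y‖ := norm_fst_le y
  have h2 : ‖y.2‖ ≤ ‖y‖ := norm_snd_le y
  apply max_le
  · have h0 : ‖(0 : A)‖ = 0 := norm_zero
    refine h0.le.trans ?_
    positivity
  · refine le_trans (norm_add_le (E := P A) _ _) ?_
    have e1 : ‖(⟨(tens y.1 c, y.1 * c), gen_mem y.1 c⟩ : P A)‖ ≤ ‖c‖ * ‖y‖ := by
      change ‖((tens y.1 c, y.1 * c) : D A × A)‖ ≤ _
      rw [Prod.norm_def]
      apply max_le
      · refine (norm_tens_le y.1 c).trans ?_
        rw [mul_comm]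
        gcongr
      · refine (norm_mul_le y.1 c).trans ?_
        rw [mul_comm]
        gcongr
    have e2 : ‖(⟨ractW c y.2, ractW_mem c _ y.2.2⟩ : P A)‖ ≤ ‖c‖ * ‖y‖ := by
      change ‖ractW c (y.2 : D A × A)‖ ≤ _
      refine (norm_ractW_le c _).trans ?_
      gcongr
      exact h2
    have e3 : 2 * ‖c‖ * ‖y‖ = ‖c‖ * ‖y‖ + ‖c‖ * ‖y‖ := by ring
    rw [e3]
    exact add_le_add e1 e2

/-- the Banach left module `A × P A` -/
noncomputable def leftFree : LeftModule A (A × P A) where
  act c y := leftLin A c y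
  add_act a b y := by rw [map_add]; rfl
  act_add a y z := map_add _ _ _
  smul_act c a y := by rw [map_smul]; rfl
  act_smul c a y := map_smul _ _ _
  mul_act c d y := by
    simp only [leftLin_apply]
    refine Prod.ext rfl (Subtype.ext ?_)
    refine Prod.ext ?_ ?_
    · simp [lactW_apply, lact_mul, lact_add_right, lact_tens, tens_zero_right]
    · simp [lactW_apply, mul_assoc, mul_add]
  bound := ⟨2, leftLin_bound A⟩

/-- the Banach right module `A × P A` -/
noncomputable def rightFree : RightModule A (A × P A) where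
  act y c := rightLin A c y
  add_act y z a := map_add _ _ _
  act_add y a b := by rw [map_add]; rfl
  smul_act c y a := map_smul _ _ _
  act_smul c y a := by rw [map_smul]; rfl
  act_mul y c d := by
    simp only [rightLin_apply]
    refine Prod.ext rfl (Subtype.ext ?_)
    refine Prod.ext ?_ ?_
    · simp [ractW_apply, ract_mul, ract_add_right, ract_tens, tens_zero_left]
    · simp [ractW_apply, mul_assoc, add_mul]
  bound := ⟨2, fun y a => (rightLin_bound A a y).trans (le_of_eq (by ring))⟩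

/-- the product map `A × P A → A` -/
noncomputable def prodMap : (A × P A) →L[ℂ] A :=
  ContinuousLinearMap.fst ℂ A (P A) +
    ((ContinuousLinearMap.snd ℂ (D A) A).comp (P A).subtypeL).comp
      (ContinuousLinearMap.snd ℂ A (P A))

lemma prodMap_apply (y : A × P A) : prodMap A y = y.1 + (y.2 : D A × A).2 := rfl

variable [CompleteSpace A]

theorem left_consequence (h : (leftRegular A).IsProjective.{u, u, u}) :
    ∃ (ρ : A →ₗ[ℂ] (A × P A)) (C : ℝ), 0 ≤ C ∧ (∀ a, ‖ρ a‖ ≤ C * ‖a‖) ∧
      (∀ a b : A, ρ (a * b) = leftLin A a (ρ b)) ∧ ∀ a, prodMap A (ρ a) = a := by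
  obtain ⟨ρ, h1, h2⟩ := h (A × P A) (leftFree A) (prodMap A) (by
    intro a y
    change prodMap A (leftLin A a y) = a * prodMap A y
    rw [prodMap_apply, prodMap_apply, leftLin_apply]
    simp [lactW_apply, mul_add]) ⟨ContinuousLinearMap.inl ℂ A (P A), fun x => by
      change prodMap A (x, (0 : P A)) = x
      rw [prodMap_apply]; simp⟩
  exact ⟨ρ.toLinearMap, ‖ρ‖, ρ.opNorm_nonneg, ρ.le_opNorm, h1, h2⟩

theorem right_consequence (h : (rightRegular A).IsProjective.{u, u, u}) :
    ∃ (ρ : A →ₗ[ℂ] (A × P A)) (C : ℝ), 0 ≤ C ∧ (∀ a, ‖ρ a‖ ≤ C * ‖a‖) ∧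
      (∀ a b : A, ρ (b * a) = rightLin A a (ρ b)) ∧ ∀ a, prodMap A (ρ a) = a := by
  obtain ⟨ρ, h1, h2⟩ := h (A × P A) (rightFree A) (prodMap A) (by
    intro y a
    change prodMap A (rightLin A a y) = prodMap A y * a
    rw [prodMap_apply, prodMap_apply, rightLin_apply]
    simp [ractW_apply, add_mul]) ⟨ContinuousLinearMap.inl ℂ A (P A), fun x => by
      change prodMap A (x, (0 : P A)) = x
      rw [prodMap_apply]; simp⟩
  exact ⟨ρ.toLinearMap, ‖ρ‖, ρ.opNorm_nonneg, ρ.le_opNorm, fun a b => h1 b a, h2⟩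

end Pool.Agent.Lib.MP_a30514_an
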