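import Mathlib
import Pool.Agent.Lib.MP_a30514_an.AD

set_option autoImplicit false
set_option linter.unusedSectionVars false

namespace Pool.Agent.Lib.MP_a30514_an

/-- head of the sets of the family -/
noncomputable def head (f : ℕ → Bool) (N : ℕ) : Finset ℕ := by
  classical exact (Finset.range N).filter (fun k => k ∈ AD f)

lemma head_union_tail (f : ℕ → Bool) (N : ℕ) : (↑(head f N) : Set ℕ) ∪ tail f N = AD f := by
  classical
  ext k
  simp only [head, tail, Set.mem_union, Finset.mem_coe, Finset.mem_filter, Finset.mem_range]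
  constructor
  · rintro (h | h)
    · exact h.2
    · exact h.1
  · intro h
    by_cases hk : k < N
    · exact Or.inl ⟨hk, h⟩
    · exact Or.inr ⟨h, by omega⟩

lemma head_disjoint_tail (f : ℕ → Bool) (N : ℕ) : Disjoint (↑(head f N) : Set ℕ) (tail f N) := by
  classical
  rw [Set.disjoint_left]
  intro k hk hk'
  simp only [head, Finset.mem_coe, Finset.mem_filter, Finset.mem_range] at hk
  have := hk'.2
  omega

/-- A countable set of parameters cannot distinguish the members of the family. -/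
lemma not_injOn_countable {β : Type*} [Countable β] (G : Set (ℕ → Bool)) (hG : Gᶜ.Countable)
    (Φ : (ℕ → Bool) → β) : ¬ Set.InjOn Φ G := by
  intro h
  have h1 : G.Countable := by
    have h2 := (Set.to_countable (Φ '' G))
    exact Set.countable_of_injective_of_countable_image h h2
  apply cantor_uncountable
  have := h1.union hG
  rwa [Set.union_compl_self] at this

theorem no_resolution (r : ℕ → Set ℕ → ℕ → ℂ) (C : ℝ)
    (hadd : ∀ (j : ℕ) (S S' : Set ℕ), Disjoint S S' → ∀ n, r j (S ∪ S') n = r j S n + r j S' n)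
    (hsum : ∀ (j K : ℕ) (T : Fin K → Set ℕ), (∀ i j, i ≠ j → Disjoint (T i) (T j)) →
      ∀ ω : Fin K → ℕ, ∑ i, ‖r j (T i) (ω i)‖ ≤ C)
    (hres : ∀ (S : Set ℕ) (ε : ℝ), 0 < ε →
      ∃ J : ℕ, ∀ n, ‖S.indicator (1 : ℕ → ℂ) n - ∑ j : Fin J, r j S n‖ ≤ ε) : False := by
  classical
  set G : Set (ℕ → Bool) :=
    {f | ∀ (j : ℕ) (q : ℝ), 0 < q → ∃ N, ∀ ω, ‖r j (tail f N) ω‖ ≤ q} with hG
  have hGc : Gᶜ.Countable := small_countable r C hsum
  have key : ∀ f ∈ G, ∃ x : (Σ J : ℕ, (Fin J → Finset ℕ)),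
      ∀ n, ‖(AD f).indicator (1 : ℕ → ℂ) n - ∑ j : Fin x.1, r j (↑(x.2 j) : Set ℕ) n‖ ≤ 1 / 4 := by
    intro f hf
    obtain ⟨J, hJ⟩ := hres (AD f) (1 / 8) (by norm_num)
    have hq : (0 : ℝ) < 1 / (8 * (J + 1)) := by positivity
    choose N hN using fun j : Fin J => hf (j : ℕ) _ hq
    refine ⟨⟨J, fun j => head f (N j)⟩, fun n => ?_⟩
    have h1 : (AD f).indicator (1 : ℕ → ℂ) n - ∑ j : Fin J, r j (↑(head f (N j)) : Set ℕ) n =
        ((AD f).indicator (1 : ℕ → ℂ) n - ∑ j : Fin J, r j (AD f) n) +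
          ∑ j : Fin J, r j (tail f (N j)) n := by
      have h2 : ∑ j : Fin J, r j (AD f) n = ∑ j : Fin J, r j (↑(head f (N j)) : Set ℕ) n +
          ∑ j : Fin J, r j (tail f (N j)) n := by
        rw [← Finset.sum_add_distrib]
        refine Finset.sum_congr rfl fun j _ => ?_
        rw [← hadd _ _ _ (head_disjoint_tail f (N j)), head_union_tail]
      rw [h2]; ring
    change ‖(AD f).indicator (1 : ℕ → ℂ) n - ∑ j : Fin J, r j (↑(head f (N j)) : Set ℕ) n‖ ≤ 1 / 4
    rw [h1]
    refine (norm_add_le _ _).trans ?_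
    have h3 : ‖∑ j : Fin J, r j (tail f (N j)) n‖ ≤ 1 / 8 := by
      refine (norm_sum_le _ _).trans ?_
      refine (Finset.sum_le_sum fun j _ => hN j n).trans ?_
      rw [Finset.sum_const, Finset.card_univ, Fintype.card_fin, nsmul_eq_mul]
      rw [mul_one_div, div_le_div_iff₀ (by positivity) (by norm_num)]
      linarith
    have h4 := hJ n
    linarith
  choose! Φ hΦ using key
  apply not_injOn_countable G hGc Φ
  intro f hf g hg hfg
  apply AD_injective
  ext n
  have h1 := hΦ f hf n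
  have h2 := hΦ g hg n
  rw [hfg] at h1
  have h3 : ‖(AD f).indicator (1 : ℕ → ℂ) n - (AD g).indicator (1 : ℕ → ℂ) n‖ ≤ 1 / 2 := by
    have h4 : (AD f).indicator (1 : ℕ → ℂ) n - (AD g).indicator (1 : ℕ → ℂ) n =
      ((AD f).indicator (1 : ℕ → ℂ) n - ∑ j : Fin (Φ g).1, r j (↑((Φ g).2 j) : Set ℕ) n) -
      ((AD g).indicator (1 : ℕ → ℂ) n - ∑ j : Fin (Φ g).1, r j (↑((Φ g).2 j) : Set ℕ) n) := by
      ring
    rw [h4]
    refine (norm_sub_le _ _).trans ?_
    linarith
  by_cases c1 : n ∈ AD f <;> by_cases c2 : n ∈ AD g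
  · exact ⟨fun _ => c2, fun _ => c1⟩
  · rw [Set.indicator_of_mem c1, Set.indicator_of_notMem c2] at h3
    norm_num at h3
  · rw [Set.indicator_of_notMem c1, Set.indicator_of_mem c2] at h3
    norm_num at h3
  · exact ⟨fun h => absurd h c1, fun h => absurd h c2⟩

end Pool.Agent.Lib.MP_a30514_an
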