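import Mathlib
import Pool.Agent.Lib.MP_a30514_an.Free
import Pool.Agent.Lib.MP_a30514_an.NoRes

set_option autoImplicit false
set_option linter.unusedSectionVars false

namespace Pool.Agent.Lib.MP_a30514_an

open scoped ENNReal

/-- the Banach space `ℓ^∞(ℕ)` -/
abbrev E2 : Type := lp (fun _ : ℕ => ℂ) ∞

lemma E2.norm_apply_le (x : E2) (n : ℕ) : ‖x n‖ ≤ ‖x‖ :=
  lp.norm_apply_le_norm ENNReal.top_ne_zero x n

lemma E2.norm_le (x : E2) (C : ℝ) (hC : 0 ≤ C) (h : ∀ n, ‖x n‖ ≤ C) : ‖x‖ ≤ C :=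
  lp.norm_le_of_forall_le hC h

/-- indicator vectors -/
noncomputable def ind (S : Set ℕ) : E2 :=
  ⟨S.indicator (1 : ℕ → ℂ), memℓp_infty ⟨1, by
    rintro _ ⟨n, rfl⟩
    refine (norm_indicator_le_norm_self (1 : ℕ → ℂ) n).trans ?_
    simp⟩⟩

lemma ind_apply (S : Set ℕ) (n : ℕ) : ind S n = S.indicator (1 : ℕ → ℂ) n := rfl

lemma ind_singleton (k n : ℕ) : ind {k} n = if n = k then 1 else 0 := by
  rw [ind_apply]
  by_cases h : n = k
  · simp [h]
  · simp [h]

lemma norm_ind_le (S : Set ℕ) : ‖ind S‖ ≤ 1 := by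
  refine E2.norm_le _ _ zero_le_one fun n => ?_
  rw [ind_apply]
  refine (norm_indicator_le_norm_self (1 : ℕ → ℂ) n).trans ?_
  simp

lemma ind_union (S S' : Set ℕ) (h : Disjoint S S') : ind (S ∪ S') = ind S + ind S' := by
  apply lp.ext
  rw [lp.coeFn_add]
  change (S ∪ S').indicator (1 : ℕ → ℂ) = S.indicator (1 : ℕ → ℂ) + S'.indicator (1 : ℕ → ℂ)
  exact Set.indicator_union_of_disjoint h _

lemma E2.sum_apply {ι : Type*} (s : Finset ι) (x : ι → E2) (n : ℕ) :
    (∑ i ∈ s, x i) n = ∑ i ∈ s, x i n := by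
  rw [lp.coeFn_sum, Finset.sum_apply]

lemma E2.smul_apply (c : ℂ) (x : E2) (n : ℕ) : (c • x) n = c * x n := by
  rw [lp.coeFn_smul, Pi.smul_apply, smul_eq_mul]

lemma norm_disj_sum_le (K : ℕ) (T : Fin K → Set ℕ) (hT : ∀ i j, i ≠ j → Disjoint (T i) (T j))
    (c : Fin K → ℂ) (B : ℝ) (hB : 0 ≤ B) (hc : ∀ i, ‖c i‖ ≤ B) :
    ‖∑ i, c i • ind (T i)‖ ≤ B := by
  classical
  refine E2.norm_le _ _ hB fun n => ?_
  rw [E2.sum_apply]
  by_cases h : ∃ i, n ∈ T i
  · obtain ⟨i, hi⟩ := h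
    rw [Finset.sum_eq_single i]
    · rw [E2.smul_apply, ind_apply, Set.indicator_of_mem hi]
      simpa using hc i
    · intro j _ hj
      have : n ∉ T j := fun hn => (Set.disjoint_left.1 (hT j i hj) hn) hi
      rw [E2.smul_apply, ind_apply, Set.indicator_of_notMem this, mul_zero]
    · intro h; exact absurd (Finset.mem_univ _) h
  · rw [Finset.sum_eq_zero]
    · simpa using hB
    · intro i _
      have : n ∉ T i := fun hn => h ⟨i, hn⟩
      rw [E2.smul_apply, ind_apply, Set.indicator_of_notMem this, mul_zero]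

/-- coordinate functionals -/
noncomputable def coord (k : ℕ) : E2 →L[ℂ] ℂ :=
  LinearMap.mkContinuous
    { toFun := fun x => x k
      map_add' := fun x y => by rw [lp.coeFn_add]; rfl
      map_smul' := fun c x => by rw [lp.coeFn_smul]; rfl } 1 (fun x => by
      change ‖x k‖ ≤ 1 * ‖x‖
      rw [one_mul]
      exact E2.norm_apply_le x k)

@[simp] lemma coord_apply (k : ℕ) (x : E2) : coord k x = x k := rfl

/-- the algebra `K(ℓ^∞)` -/
def A2 : Type := K E2

noncomputable instance A2.ring : NonUnitalNormedRing A2 := K.ring E2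
noncomputable instance A2.space : NormedSpace ℂ A2 := K.space E2
instance A2.tower : IsScalarTower ℂ A2 A2 := K.tower E2
instance A2.comm : SMulCommClass ℂ A2 A2 := K.comm E2
instance A2.complete : CompleteSpace A2 := K.complete E2

/-- the operator underlying an element of `K(ℓ^∞)` -/
def A2.op (a : A2) : E2 →L[ℂ] E2 := Subtype.val (show compactAlg E2 from a)

lemma A2.ext {a b : A2} (h : ∀ x, a.op x = b.op x) : a = b :=
  Subtype.ext (ContinuousLinearMap.ext h)

@[simp] lemma A2.op_add (a b : A2) : (a + b).op = a.op + b.op := rfl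
@[simp] lemma A2.op_sub (a b : A2) : (a - b).op = a.op - b.op := rfl
@[simp] lemma A2.op_zero : (0 : A2).op = 0 := rfl
@[simp] lemma A2.op_smul (c : ℂ) (a : A2) : (c • a).op = c • a.op := rfl
@[simp] lemma A2.op_mul (a b : A2) (x : E2) : (a * b).op x = a.op (b.op x) := rfl
lemma A2.norm_op (a : A2) : ‖a.op‖ = ‖a‖ := rfl
lemma A2.compact (a : A2) : IsCompactOperator a.op := Subtype.property (show compactAlg E2 from a)

lemma A2.op_sum {ι : Type*} (s : Finset ι) (a : ι → A2) : (∑ i ∈ s, a i).op = ∑ i ∈ s, (a i).op := by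
  classical
  induction s using Finset.induction_on with
  | empty => rfl
  | insert x s hx ih => rw [Finset.sum_insert hx, Finset.sum_insert hx, A2.op_add, ih]

lemma A2.norm_apply_le (a : A2) (x : E2) : ‖a.op x‖ ≤ ‖a‖ * ‖x‖ := a.op.le_opNorm x

/-- the rank one operator `y ↦ y_k 1_S` -/
noncomputable def R2 (k : ℕ) (S : Set ℕ) : A2 :=
  ⟨(coord k).smulRight (ind S), by
    have h1 : IsCompactOperator (coord k) := isCompactOperator_of_locallyCompactSpace_dom _
    exact h1.clm_comp (ContinuousLinearMap.toSpanSingleton ℂ (ind S))⟩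

lemma R2_apply (k : ℕ) (S : Set ℕ) (x : E2) : (R2 k S).op x = x k • ind S := rfl

lemma R2_mul (k : ℕ) (S : Set ℕ) : R2 0 S * R2 k {0} = R2 k S := by
  apply A2.ext
  intro x
  rw [A2.op_mul, R2_apply, R2_apply, R2_apply, E2.smul_apply, ind_singleton]
  simp

lemma R2_union (k : ℕ) (S S' : Set ℕ) (h : Disjoint S S') : R2 k (S ∪ S') = R2 k S + R2 k S' := by
  apply A2.ext
  intro x
  rw [A2.op_add, _root_.add_apply, R2_apply, R2_apply, R2_apply, ind_union S S' h, smul_add]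

lemma norm_sum_R2_le (K : ℕ) (T : Fin K → Set ℕ) (hT : ∀ i j, i ≠ j → Disjoint (T i) (T j)) :
    ‖∑ i : Fin K, R2 i (T i)‖ ≤ 1 := by
  rw [← A2.norm_op]
  refine ContinuousLinearMap.opNorm_le_bound _ zero_le_one fun x => ?_
  rw [A2.op_sum, _root_.sum_apply, one_mul]
  simp only [R2_apply]
  exact norm_disj_sum_le K T hT _ _ (norm_nonneg _) fun i => E2.norm_apply_le x i

lemma sum_R2_mul (K : ℕ) (T : Fin K → Set ℕ) (k : Fin K) :
    (∑ i : Fin K, R2 i (T i)) * R2 0 {(k : ℕ)} = R2 0 (T k) := by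
  classical
  apply A2.ext
  intro x
  rw [A2.op_mul, R2_apply, R2_apply, map_smul, A2.op_sum, _root_.sum_apply]
  congr 1
  rw [Finset.sum_eq_single k]
  · rw [R2_apply, ind_singleton, if_pos rfl, one_smul]
  · intro i _ hi
    rw [R2_apply, ind_singleton, if_neg (fun h => hi (Fin.ext h)), zero_smul]
  · intro h; exact absurd (Finset.mem_univ _) h

/-- the functionals `a ↦ (a 1_P)(n)` on `K(ℓ^∞)` -/
noncomputable def kap (P : Set ℕ) (n : ℕ) : A2 →L[ℂ] ℂ :=
  LinearMap.mkContinuous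
    { toFun := fun a => a.op (ind P) n
      map_add' := fun a b => by
        rw [A2.op_add, _root_.add_apply, lp.coeFn_add]; rfl
      map_smul' := fun c a => by
        rw [A2.op_smul, _root_.smul_apply, lp.coeFn_smul]; rfl } 1 (fun a => by
      change ‖a.op (ind P) n‖ ≤ 1 * ‖a‖
      refine (E2.norm_apply_le _ _).trans ?_
      refine (a.norm_apply_le _).trans ?_
      have := norm_ind_le P
      nlinarith [norm_nonneg a])

lemma kap_apply (P : Set ℕ) (n : ℕ) (a : A2) : kap P n a = a.op (ind P) n := rfl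

lemma norm_kap_le (P : Set ℕ) (n : ℕ) (a : A2) : ‖kap P n a‖ ≤ ‖a‖ := by
  have h1 : ‖kap P n‖ ≤ 1 := LinearMap.mkContinuous_norm_le _ zero_le_one _
  refine ((kap P n).le_opNorm a).trans ?_
  nlinarith [norm_nonneg a]

lemma exists_unimod (z : ℂ) : ∃ θ : ℂ, ‖θ‖ ≤ 1 ∧ θ * z = (‖z‖ : ℂ) := by
  by_cases h0 : z = 0
  · exact ⟨0, by simp, by simp [h0]⟩
  · refine ⟨(‖z‖ : ℂ) / z, ?_, div_mul_cancel₀ _ h0⟩
    rw [norm_div, Complex.norm_real, norm_norm, div_self (norm_ne_zero_iff.2 h0)]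

lemma sum_kap_le (K : ℕ) (m : ℕ) (b : A2) : ∑ i : Fin K, ‖kap {(i : ℕ)} m b‖ ≤ ‖b‖ := by
  choose θ hθ1 hθ2 using fun i : Fin K => exists_unimod (kap {(i : ℕ)} m b)
  have h1 : (b.op (∑ i, θ i • ind {(i : ℕ)})) m = ((∑ i : Fin K, ‖kap {(i : ℕ)} m b‖ : ℝ) : ℂ) := by
    rw [map_sum, E2.sum_apply, Complex.ofReal_sum]
    refine Finset.sum_congr rfl fun i _ => ?_
    rw [map_smul, E2.smul_apply, ← hθ2 i]
    rfl
  have h2 : ‖(b.op (∑ i, θ i • ind {(i : ℕ)})) m‖ ≤ ‖b‖ := by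
    refine (E2.norm_apply_le _ _).trans ((b.norm_apply_le _).trans ?_)
    have h3 := norm_disj_sum_le K (fun i => {(i : ℕ)}) (by
      intro i j hij
      rw [Set.disjoint_singleton]
      exact fun h => hij (Fin.ext h)) θ 1 zero_le_one hθ1
    calc ‖b‖ * ‖∑ i, θ i • ind {(i : ℕ)}‖ ≤ ‖b‖ * 1 := by gcongr
      _ = ‖b‖ := mul_one _
  rw [h1, Complex.norm_real, Real.norm_eq_abs, abs_of_nonneg] at h2
  · exact h2
  · exact Finset.sum_nonneg fun _ _ => norm_nonneg _

end Pool.Agent.Lib.MP_a30514_an
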