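import Mathlib
import Pool.Agent.Lib.MP_a30514_an.Free
import Pool.Agent.Lib.MP_a30514_an.NoRes

set_option autoImplicit false
set_option linter.unusedSectionVars false

namespace Pool.Agent.Lib.MP_a30514_an

open scoped ENNReal

/-- the Banach space `ℓ¹(ℕ)` -/
abbrev E1 : Type := lp (fun _ : ℕ => ℂ) 1

lemma E1.hasSum_norm (x : E1) : HasSum (fun n => ‖x n‖) ‖x‖ := by
  have h := lp.hasSum_norm (p := 1) (by norm_num) x
  simpa using h

lemma E1.norm_apply_le (x : E1) (n : ℕ) : ‖x n‖ ≤ ‖x‖ :=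
  lp.norm_apply_le_norm one_ne_zero x n

lemma E1.sum_le (x : E1) (s : Finset ℕ) : ∑ n ∈ s, ‖x n‖ ≤ ‖x‖ :=
  sum_le_hasSum s (fun _ _ => norm_nonneg _) x.hasSum_norm

/-- the unit vectors -/
noncomputable def e1 (n : ℕ) : E1 := lp.single 1 n 1

lemma e1_apply (n k : ℕ) : e1 n k = if k = n then 1 else 0 := by
  by_cases h : k = n
  · subst h
    rw [if_pos rfl]
    exact lp.single_apply_self 1 k 1
  · rw [if_neg h]
    exact lp.single_apply_ne 1 n 1 h

lemma norm_e1 (n : ℕ) : ‖e1 n‖ = 1 := by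
  rw [e1, lp.norm_single one_pos]
  simp

lemma E1.summable_indicator (S : Set ℕ) (x : E1) : Summable (S.indicator (fun n => x n)) := by
  apply Summable.of_norm
  refine Summable.of_nonneg_of_le (fun _ => norm_nonneg _) (fun n => ?_) x.hasSum_norm.summable
  exact norm_indicator_le_norm_self (fun n => x n) n

/-- the functional `x ↦ ∑_{n ∈ S} x n` -/
noncomputable def sumOn (S : Set ℕ) : E1 →L[ℂ] ℂ :=
  LinearMap.mkContinuous
    { toFun := fun x => ∑' n, S.indicator (fun n => x n) n
      map_add' := fun x y => by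
        rw [← (x.summable_indicator S).tsum_add (y.summable_indicator S)]
        refine tsum_congr fun n => ?_
        by_cases h : n ∈ S
        · simp [h]
        · simp [h]
      map_smul' := fun c x => by
        rw [RingHom.id_apply, smul_eq_mul, ← tsum_mul_left]
        refine tsum_congr fun n => ?_
        by_cases h : n ∈ S
        · simp [h]
        · simp [h] } 1 (fun x => by
      change ‖∑' n, S.indicator (fun n => x n) n‖ ≤ 1 * ‖x‖
      rw [one_mul]
      refine (norm_tsum_le_tsum_norm (x.summable_indicator S).norm).trans ?_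
      rw [← x.hasSum_norm.tsum_eq]
      refine (x.summable_indicator S).norm.tsum_le_tsum (fun n => ?_) x.hasSum_norm.summable
      exact norm_indicator_le_norm_self (fun n => x n) n)

lemma sumOn_apply (S : Set ℕ) (x : E1) : sumOn S x = ∑' n, S.indicator (fun n => x n) n := rfl

lemma sumOn_e1 (S : Set ℕ) (n : ℕ) : sumOn S (e1 n) = S.indicator 1 n := by
  rw [sumOn_apply, tsum_eq_single n]
  · by_cases h : n ∈ S
    · simp [h, e1_apply]
    · simp [h]
  · intro k hk
    by_cases h : k ∈ S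
    · simp [h, e1_apply, hk]
    · simp [h]

lemma sumOn_union (S S' : Set ℕ) (h : Disjoint S S') : sumOn (S ∪ S') = sumOn S + sumOn S' := by
  ext x
  rw [_root_.add_apply, sumOn_apply, sumOn_apply, sumOn_apply,
    ← (x.summable_indicator S).tsum_add (x.summable_indicator S')]
  refine tsum_congr fun n => ?_
  rw [Set.indicator_union_of_disjoint h]

lemma sum_sumOn_le (K : ℕ) (T : Fin K → Set ℕ) (hT : ∀ i j, i ≠ j → Disjoint (T i) (T j))
    (x : E1) : ∑ i, ‖sumOn (T i) x‖ ≤ ‖x‖ := by
  classical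
  have h1 : ∀ i, ‖sumOn (T i) x‖ ≤ ∑' n, ‖(T i).indicator (fun n => x n) n‖ := fun i => by
    rw [sumOn_apply]
    exact norm_tsum_le_tsum_norm (x.summable_indicator (T i)).norm
  refine (Finset.sum_le_sum fun i _ => h1 i).trans ?_
  rw [← Summable.tsum_finsetSum (fun i _ => (x.summable_indicator (T i)).norm),
    ← x.hasSum_norm.tsum_eq]
  refine Summable.tsum_le_tsum (fun n => ?_)
    (summable_sum fun i _ => (x.summable_indicator (T i)).norm) x.hasSum_norm.summable
  by_cases h : ∃ i, n ∈ T i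
  · obtain ⟨i, hi⟩ := h
    rw [Finset.sum_eq_single i]
    · exact norm_indicator_le_norm_self (fun n => x n) n
    · intro j _ hj
      have : n ∉ T j := fun hn => (Set.disjoint_left.1 (hT j i hj) hn) hi
      simp [this]
    · intro h; exact absurd (Finset.mem_univ _) h
  · rw [Finset.sum_eq_zero]
    · exact norm_nonneg _
    · intro i _
      have : n ∉ T i := fun hn => h ⟨i, hn⟩
      simp [this]

/-- the algebra `K(ℓ¹)` -/
def A1 : Type := K E1

noncomputable instance A1.ring : NonUnitalNormedRing A1 := K.ring E1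
noncomputable instance A1.space : NormedSpace ℂ A1 := K.space E1
instance A1.tower : IsScalarTower ℂ A1 A1 := K.tower E1
instance A1.comm : SMulCommClass ℂ A1 A1 := K.comm E1
instance A1.complete : CompleteSpace A1 := K.complete E1

/-- the operator underlying an element of `K(ℓ¹)` -/
def A1.op (a : A1) : E1 →L[ℂ] E1 := Subtype.val (show compactAlg E1 from a)

lemma A1.ext {a b : A1} (h : ∀ x, a.op x = b.op x) : a = b :=
  Subtype.ext (ContinuousLinearMap.ext h)

@[simp] lemma A1.op_add (a b : A1) : (a + b).op = a.op + b.op := rfl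
@[simp] lemma A1.op_sub (a b : A1) : (a - b).op = a.op - b.op := rfl
@[simp] lemma A1.op_zero : (0 : A1).op = 0 := rfl
@[simp] lemma A1.op_smul (c : ℂ) (a : A1) : (c • a).op = c • a.op := rfl
@[simp] lemma A1.op_mul (a b : A1) (x : E1) : (a * b).op x = a.op (b.op x) := rfl
lemma A1.norm_op (a : A1) : ‖a.op‖ = ‖a‖ := rfl
lemma A1.compact (a : A1) : IsCompactOperator a.op := Subtype.property (show compactAlg E1 from a)

lemma A1.op_sum {ι : Type*} (s : Finset ι) (a : ι → A1) : (∑ i ∈ s, a i).op = ∑ i ∈ s, (a i).op := by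
  classical
  induction s using Finset.induction_on with
  | empty => rfl
  | insert x s hx ih => rw [Finset.sum_insert hx, Finset.sum_insert hx, A1.op_add, ih]

lemma A1.norm_apply_le (a : A1) (x : E1) : ‖a.op x‖ ≤ ‖a‖ * ‖x‖ := a.op.le_opNorm x

/-- the rank one operator `x ↦ (∑_{n ∈ S} x n) e_k` -/
noncomputable def R1 (k : ℕ) (S : Set ℕ) : A1 :=
  ⟨(sumOn S).smulRight (e1 k), by
    have h1 : IsCompactOperator (sumOn S) := isCompactOperator_of_locallyCompactSpace_dom _
    exact h1.clm_comp (ContinuousLinearMap.toSpanSingleton ℂ (e1 k))⟩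

lemma R1_apply (k : ℕ) (S : Set ℕ) (x : E1) : (R1 k S).op x = sumOn S x • e1 k := rfl

lemma R1_mul (k : ℕ) (S : Set ℕ) : R1 k {0} * R1 0 S = R1 k S := by
  apply A1.ext
  intro x
  rw [A1.op_mul, R1_apply, R1_apply, R1_apply, map_smul, sumOn_e1]
  simp

lemma R1_union (k : ℕ) (S S' : Set ℕ) (h : Disjoint S S') : R1 k (S ∪ S') = R1 k S + R1 k S' := by
  apply A1.ext
  intro x
  rw [A1.op_add, _root_.add_apply, R1_apply, R1_apply, R1_apply, sumOn_union S S' h,
    _root_.add_apply, add_smul]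

lemma norm_sum_R1_le (K : ℕ) (T : Fin K → Set ℕ) (hT : ∀ i j, i ≠ j → Disjoint (T i) (T j)) :
    ‖∑ i : Fin K, R1 i (T i)‖ ≤ 1 := by
  rw [← A1.norm_op]
  refine ContinuousLinearMap.opNorm_le_bound _ zero_le_one fun x => ?_
  rw [A1.op_sum, _root_.sum_apply, one_mul]
  simp only [R1_apply]
  refine (norm_sum_le _ _).trans ?_
  refine le_trans (le_of_eq ?_) (sum_sumOn_le K T hT x)
  refine Finset.sum_congr rfl fun i _ => ?_
  rw [norm_smul, norm_e1, mul_one]

/-- matrix entries as functionals on `K(ℓ¹)` -/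
noncomputable def ent (i j : ℕ) : A1 →L[ℂ] ℂ :=
  LinearMap.mkContinuous
    { toFun := fun a => a.op (e1 j) i
      map_add' := fun a b => by
        rw [A1.op_add, _root_.add_apply, lp.coeFn_add]; rfl
      map_smul' := fun c a => by
        rw [A1.op_smul, _root_.smul_apply, lp.coeFn_smul]; rfl } 1 (fun a => by
      change ‖a.op (e1 j) i‖ ≤ 1 * ‖a‖
      refine (E1.norm_apply_le _ _).trans ?_
      refine (a.norm_apply_le _).trans ?_
      rw [norm_e1, mul_one, one_mul])

lemma ent_apply (i j : ℕ) (a : A1) : ent i j a = a.op (e1 j) i := rfl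

lemma norm_ent_le (i j : ℕ) (a : A1) : ‖ent i j a‖ ≤ ‖a‖ := by
  have h1 : ‖ent i j‖ ≤ 1 := LinearMap.mkContinuous_norm_le _ zero_le_one _
  refine ((ent i j).le_opNorm a).trans ?_
  nlinarith [norm_nonneg a]

lemma sum_ent_le (j : ℕ) (s : Finset ℕ) (a : A1) : ∑ i ∈ s, ‖ent i j a‖ ≤ ‖a‖ := by
  simp only [ent_apply]
  refine (E1.sum_le _ s).trans ?_
  refine (a.norm_apply_le _).trans ?_
  rw [norm_e1, mul_one]

lemma ent_R1_mul (k i j : ℕ) (a : A1) :
    ent i j (R1 k {0} * a) = if i = k then ent 0 j a else 0 := by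
  rw [ent_apply, A1.op_mul, R1_apply, lp.coeFn_smul, Pi.smul_apply, e1_apply]
  have h1 : sumOn {0} (a.op (e1 j)) = ent 0 j a := by
    rw [sumOn_apply, tsum_eq_single 0]
    · simp [ent_apply]
    · intro k hk
      simp [hk]
  rw [h1]
  split_ifs <;> simp

lemma ent_R1 (n : ℕ) (S : Set ℕ) : ent 0 n (R1 0 S) = S.indicator 1 n := by
  rw [ent_apply, R1_apply, sumOn_e1, lp.coeFn_smul, Pi.smul_apply, e1_apply]
  simp

end Pool.Agent.Lib.MP_a30514_an
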