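import Mathlib
import Pool.Agent.Lib.MP_a30514_an.EllOne

set_option autoImplicit false
set_option linter.unusedSectionVars false

namespace Pool.Agent.Lib.MP_a30514_an

open scoped ENNReal
open Filter

/-- basis projections of `ℓ¹` -/
noncomputable def proj (J : ℕ) (y : E1) : E1 := ∑ j ∈ Finset.range J, lp.single 1 j (y j)

lemma proj_sub (J : ℕ) (y z : E1) : proj J (y - z) = proj J y - proj J z := by
  rw [proj, proj, proj, ← Finset.sum_sub_distrib]
  refine Finset.sum_congr rfl fun j _ => ?_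
  rw [← lp.single_sub, lp.coeFn_sub]
  rfl

lemma norm_compl_proj_le (J : ℕ) (y : E1) : ‖y - proj J y‖ ≤ ‖y‖ := by
  have h := lp.norm_compl_sum_single (p := 1) (by norm_num) y (Finset.range J)
  simp only [ENNReal.toReal_one, Real.rpow_one] at h
  rw [proj, h]
  have : 0 ≤ ∑ i ∈ Finset.range J, ‖y i‖ := Finset.sum_nonneg fun _ _ => norm_nonneg _
  linarith

lemma tendsto_compl_proj (y : E1) : Tendsto (fun J => ‖y - proj J y‖) atTop (nhds 0) := by
  have h := (lp.hasSum_single (p := 1) (by norm_num) y).tendsto_sum_nat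
  have h2 : Tendsto (fun J => y - proj J y) atTop (nhds (y - y)) := tendsto_const_nhds.sub h
  rw [sub_self] at h2
  simpa using h2.norm

/-- compact operators are uniformly approximated by their cut-offs -/
lemma compact_tail (b : A1) (δ : ℝ) (hδ : 0 < δ) :
    ∀ᶠ J in atTop, ∀ x : E1, ‖x‖ ≤ 1 → ‖b.op x - proj J (b.op x)‖ ≤ δ := by
  have hK : IsCompact (closure (b.op '' Metric.closedBall 0 1)) :=
    IsCompactOperator.isCompact_closure_image_closedBall (f := b.op.toLinearMap) b.compact 1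
  have htb := hK.totallyBounded
  rw [Metric.totallyBounded_iff] at htb
  obtain ⟨t, ht, hcov⟩ := htb (δ / 2) (by positivity)
  have h1 : ∀ᶠ J in atTop, ∀ y ∈ t, ‖y - proj J y‖ < δ / 2 := by
    rw [Filter.eventually_all_finite ht]
    intro y _
    exact (tendsto_compl_proj y).eventually (gt_mem_nhds (by positivity))
  filter_upwards [h1] with J hJ x hx
  have h2 : b.op x ∈ closure (b.op '' Metric.closedBall 0 1) :=
    subset_closure ⟨x, by simpa using hx, rfl⟩
  have h3 := hcov h2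
  simp only [Set.mem_iUnion] at h3
  obtain ⟨y, hy, hxy⟩ := h3
  rw [Metric.mem_ball, dist_eq_norm] at hxy
  have h4 := hJ y hy
  have h5 : b.op x - proj J (b.op x) = (y - proj J y) + ((b.op x - y) - proj J (b.op x - y)) := by
    rw [proj_sub]; abel
  rw [h5]
  refine (norm_add_le _ _).trans ?_
  have h6 := norm_compl_proj_le J (b.op x - y)
  linarith

/-- the bilinear form `(a, b) ↦ a_{0j} b_{jn}` -/
noncomputable def beta (j n : ℕ) : Bil A1 := Bil.mk ((ent 0 j).smulRight (ent j n))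

lemma beta_ev (j n : ℕ) (a b : A1) : (beta j n).ev a b = ent 0 j a * ent j n b := rfl

/-- the bilinear form `(a, b) ↦ ∑_{i} θ_i a_{ij} b_{j n_i}` -/
noncomputable def gam (K j : ℕ) (θ : Fin K → ℂ) (n : Fin K → ℕ) : Bil A1 :=
  ∑ i : Fin K, θ i • Bil.mk ((ent i j).smulRight (ent j (n i)))

lemma gam_ev (K j : ℕ) (θ : Fin K → ℂ) (n : Fin K → ℕ) (a b : A1) :
    (gam K j θ n).ev a b = ∑ i : Fin K, θ i * (ent i j a * ent j (n i) b) := by
  rw [gam, Bil.ev_sum]
  rfl

lemma norm_gam_le (K j : ℕ) (θ : Fin K → ℂ) (hθ : ∀ i, ‖θ i‖ ≤ 1) (n : Fin K → ℕ) :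
    ‖gam K j θ n‖ ≤ 1 := by
  refine Bil.norm_le _ _ zero_le_one fun a b => ?_
  rw [gam_ev, one_mul]
  refine (norm_sum_le _ _).trans ?_
  have h1 : ∀ i : Fin K, ‖θ i * (ent i j a * ent j (n i) b)‖ ≤ ‖ent i j a‖ * ‖b‖ := by
    intro i
    rw [norm_mul, norm_mul]
    have := hθ i
    have h2 := norm_ent_le j (n i) b
    have h3 : ‖θ i‖ * (‖ent i j a‖ * ‖ent j (n i) b‖) ≤ 1 * (‖ent i j a‖ * ‖b‖) := by gcongr
    linarith
  refine (Finset.sum_le_sum fun i _ => h1 i).trans ?_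
  rw [← Finset.sum_mul]
  have h4 : ∑ i : Fin K, ‖ent i j a‖ = ∑ i ∈ Finset.range K, ‖ent i j a‖ :=
    (Finset.sum_range (fun i => ‖ent i j a‖)).symm
  rw [h4]
  gcongr
  exact sum_ent_le j _ a

lemma pre_gam (K j : ℕ) (θ : Fin K → ℂ) (n : Fin K → ℕ) (k : Fin K) :
    pre (R1 k {0}) (gam K j θ n) = θ k • beta j (n k) := by
  apply Bil.ext
  intro a b
  rw [pre_ev, gam_ev, Bil.ev_smul, beta_ev, Finset.sum_eq_single k]
  · rw [ent_R1_mul, if_pos rfl]
  · intro i _ hik
    rw [ent_R1_mul, if_neg (fun h => hik (Fin.ext h))]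
    ring
  · intro h; exact absurd (Finset.mem_univ _) h

lemma sum_beta_bound (J n : ℕ) (a b : A1) :
    ‖∑ j : Fin J, (beta j n).ev a b‖ ≤ ‖a‖ * ‖b‖ := by
  refine (norm_sum_le _ _).trans ?_
  have h1 : ∀ j : Fin J, ‖(beta j n).ev a b‖ ≤ ‖a‖ * ‖ent j n b‖ := by
    intro j
    rw [beta_ev, norm_mul]
    gcongr
    exact norm_ent_le _ _ _
  refine (Finset.sum_le_sum fun i _ => h1 i).trans ?_
  rw [← Finset.mul_sum]
  have h4 : ∑ i : Fin J, ‖ent i n b‖ = ∑ i ∈ Finset.range J, ‖ent i n b‖ :=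
    (Finset.sum_range (fun i => ‖ent i n b‖)).symm
  rw [h4]
  gcongr
  exact sum_ent_le n _ b

lemma op_proj (a : A1) (J : ℕ) (y : E1) :
    (a.op (proj J y)) 0 = ∑ j : Fin J, y j * ent 0 j a := by
  rw [proj, map_sum, lp.coeFn_sum, Finset.sum_apply, Finset.sum_range]
  refine Finset.sum_congr rfl fun j _ => ?_
  have h1 : lp.single 1 (j : ℕ) (y j) = (y j) • e1 j := by
    rw [e1, ← lp.single_smul, smul_eq_mul, mul_one]
  rw [h1, map_smul, lp.coeFn_smul, Pi.smul_apply, smul_eq_mul, ent_apply]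

lemma beta_approx (a b : A1) (δ : ℝ) (hδ : 0 < δ) :
    ∀ᶠ J in atTop, ∀ n, ‖ent 0 n (a * b) - ∑ j : Fin J, (beta j n).ev a b‖ ≤ δ := by
  have h1 := compact_tail b (δ / (‖a‖ + 1)) (by positivity)
  filter_upwards [h1] with J hJ n
  have h2 := hJ (e1 n) (norm_e1 n).le
  have h3 : ent 0 n (a * b) - ∑ j : Fin J, (beta j n).ev a b =
      (a.op (b.op (e1 n) - proj J (b.op (e1 n)))) 0 := by
    rw [map_sub, lp.coeFn_sub, Pi.sub_apply, op_proj, ent_apply, A1.op_mul]
    congr 1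
    refine Finset.sum_congr rfl fun j _ => ?_
    rw [beta_ev, ent_apply j n b, mul_comm]
  rw [h3]
  refine (E1.norm_apply_le _ _).trans ((a.norm_apply_le _).trans ?_)
  calc ‖a‖ * ‖b.op (e1 n) - proj J (b.op (e1 n))‖ ≤ ‖a‖ * (δ / (‖a‖ + 1)) := by gcongr
    _ ≤ δ := by
      rw [mul_div_assoc', div_le_iff₀ (by positivity)]
      nlinarith [norm_nonneg a]

lemma list_approx (l : List (A1 × A1)) : ∀ δ : ℝ, 0 < δ →
    ∀ᶠ J in atTop, ∀ n, ‖ent 0 n (psumL l) - ∑ j : Fin J, (tsumL l) (beta j n)‖ ≤ δ := by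
  induction l with
  | nil =>
    intro δ hδ
    refine Filter.Eventually.of_forall fun J n => ?_
    simp [psumL, tsumL, hδ.le]
  | cons p l ih =>
    intro δ hδ
    filter_upwards [beta_approx p.1 p.2 (δ / 2) (by positivity), ih (δ / 2) (by positivity)]
      with J h1 h2 n
    have e1 : psumL (p :: l) = p.1 * p.2 + psumL l := by simp [psumL]
    have e2 : tsumL (p :: l) = tens p.1 p.2 + tsumL l := by simp [tsumL]
    rw [e1, e2, map_add]
    have e3 : ∑ j : Fin J, (tens p.1 p.2 + tsumL l) (beta j n) =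
        ∑ j : Fin J, (beta j n).ev p.1 p.2 + ∑ j : Fin J, (tsumL l) (beta j n) := by
      rw [← Finset.sum_add_distrib]
      rfl
    rw [e3]
    have e4 : ent 0 n (p.1 * p.2) + ent 0 n (psumL l) -
        (∑ j : Fin J, (beta j n).ev p.1 p.2 + ∑ j : Fin J, (tsumL l) (beta j n)) =
        (ent 0 n (p.1 * p.2) - ∑ j : Fin J, (beta j n).ev p.1 p.2) +
        (ent 0 n (psumL l) - ∑ j : Fin J, (tsumL l) (beta j n)) := by ring
    rw [e4]
    refine (norm_add_le _ _).trans ?_
    linarith [h1 n, h2 n]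

/-- `K(ℓ¹)` is not projective as a left module over itself. -/
theorem not_left_projective_A1 : ¬ (leftRegular A1).IsProjective.{0, 0, 0} := by
  intro h
  obtain ⟨ρ, C, hC, hρC, h1, h2⟩ := left_consequence A1 h
  -- the components of `ρ`
  have hρ0 : ∀ a b : A1, (ρ (a * b)).1 = 0 := by
    intro a b; rw [h1, leftLin_apply]
  have hρS : ∀ k S, (ρ (R1 k S)).1 = 0 := by
    intro k S; rw [← R1_mul]; exact hρ0 _ _
  set F : A1 → D A1 := fun a => ((ρ a).2 : D A1 × A1).1 with hF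
  have hFR : ∀ k S, F (R1 k S) = lact (R1 k {0}) (F (R1 0 S)) := by
    intro k S
    have e1 : ρ (R1 k S) = leftLin A1 (R1 k {0}) (ρ (R1 0 S)) := by
      rw [← h1, R1_mul]
    simp only [hF]
    rw [e1, leftLin_apply, hρS]
    simp [tens_zero_right, lactW_apply]
  have hFadd : ∀ a b, F (a + b) = F a + F b := by
    intro a b; simp [hF]
  have hFnorm : ∀ a, ‖F a‖ ≤ C * ‖a‖ := by
    intro a
    have e1 : ‖F a‖ ≤ ‖((ρ a).2 : D A1 × A1)‖ := norm_fst_le _
    have e2 : ‖((ρ a).2 : D A1 × A1)‖ ≤ ‖ρ a‖ := norm_snd_le (ρ a)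
    exact e1.trans (e2.trans (hρC a))
  have hFsum : ∀ (K : ℕ) (u : Fin K → A1), F (∑ i, u i) = ∑ i, F (u i) := by
    intro K u
    have : ∀ s : Finset (Fin K), F (∑ i ∈ s, u i) = ∑ i ∈ s, F (u i) := by
      intro s
      induction s using Finset.induction_on with
      | empty => simp [hF]
      | insert x s hx ih => rw [Finset.sum_insert hx, Finset.sum_insert hx, hFadd, ih]
    exact this Finset.univ
  set r : ℕ → Set ℕ → ℕ → ℂ := fun j S n => F (R1 0 S) (beta j n) with hr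
  refine no_resolution r C ?_ ?_ ?_
  · intro j S S' hSS n
    simp only [hr]
    rw [R1_union 0 S S' hSS, hFadd, _root_.add_apply]
  · intro j K T hT ω
    set θ : Fin K → ℂ := fun i =>
      if r j (T i) (ω i) = 0 then 0 else (‖r j (T i) (ω i)‖ : ℂ) / r j (T i) (ω i) with hθ
    have hθ1 : ∀ i, ‖θ i‖ ≤ 1 := by
      intro i
      simp only [hθ]
      split_ifs with h0
      · simp
      · rw [norm_div, Complex.norm_real, norm_norm, div_self (norm_ne_zero_iff.2 h0)]
    have hθ2 : ∀ i, θ i * r j (T i) (ω i) = (‖r j (T i) (ω i)‖ : ℂ) := by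
      intro i
      simp only [hθ]
      split_ifs with h0
      · rw [h0]; simp
      · rw [div_mul_cancel₀ _ h0]
    have e1 : F (∑ i : Fin K, R1 i (T i)) (gam K j θ ω) = ∑ i, (‖r j (T i) (ω i)‖ : ℂ) := by
      rw [hFsum, _root_.sum_apply]
      refine Finset.sum_congr rfl fun i _ => ?_
      rw [hFR, lact_apply, pre_gam, map_smul, smul_eq_mul]
      exact hθ2 i
    have e2 : ‖F (∑ i : Fin K, R1 i (T i)) (gam K j θ ω)‖ ≤ C := by
      refine ((F _).le_opNorm _).trans ?_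
      have a1 := hFnorm (∑ i : Fin K, R1 i (T i))
      have a2 := norm_sum_R1_le K T hT
      have a3 := norm_gam_le K j θ hθ1 ω
      calc ‖F (∑ i : Fin K, R1 i (T i))‖ * ‖gam K j θ ω‖ ≤ (C * 1) * 1 := by
            gcongr
            exact a1.trans (by gcongr)
        _ = C := by ring
    rw [e1] at e2
    have e3 : ‖∑ i, (‖r j (T i) (ω i)‖ : ℂ)‖ = ∑ i, ‖r j (T i) (ω i)‖ := by
      rw [← Complex.ofReal_sum, Complex.norm_real, Real.norm_eq_abs, abs_of_nonneg]
      exact Finset.sum_nonneg fun _ _ => norm_nonneg _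
    rw [e3] at e2
    exact e2
  · intro S ε hε
    have hmem := ((ρ (R1 0 S)).2).2
    obtain ⟨l, hl1, hl2⟩ := approx _ hmem (ε / 4) (by positivity)
    have ht : ((ρ (R1 0 S)).2 : D A1 × A1).2 = R1 0 S := by
      have := h2 (R1 0 S)
      rw [prodMap_apply, hρS, zero_add] at this
      exact this
    obtain ⟨J, hJ⟩ := (list_approx l (ε / 4) (by positivity)).exists
    refine ⟨J, fun n => ?_⟩
    have a1 : ‖ent 0 n (R1 0 S - psumL l)‖ ≤ ε / 4 := by
      refine (norm_ent_le _ _ _).trans ?_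
      rw [← ht]
      exact hl2.le
    have a2 : ‖(F (R1 0 S) - tsumL l) (∑ j : Fin J, beta j n)‖ ≤ ε / 4 := by
      refine ((F (R1 0 S) - tsumL l).le_opNorm _).trans ?_
      have b1 : ‖∑ j : Fin J, beta j n‖ ≤ 1 := by
        refine Bil.norm_le _ _ zero_le_one fun a b => ?_
        rw [Bil.ev_sum, one_mul]
        exact sum_beta_bound J n a b
      calc ‖F (R1 0 S) - tsumL l‖ * ‖∑ j : Fin J, beta j n‖ ≤ (ε / 4) * 1 := by
            gcongr
        _ = ε / 4 := by ring
    have a3 := hJ n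
    have a4 : S.indicator (1 : ℕ → ℂ) n - ∑ j : Fin J, r j S n =
        ent 0 n (R1 0 S - psumL l) + (ent 0 n (psumL l) - ∑ j : Fin J, (tsumL l) (beta j n))
          - (F (R1 0 S) - tsumL l) (∑ j : Fin J, beta j n) := by
      rw [map_sub, ent_R1, _root_.sub_apply, map_sum, map_sum]
      simp only [hr]
      ring
    rw [a4]
    refine (norm_sub_le _ _).trans ?_
    have a5 := norm_add_le (ent 0 n (R1 0 S - psumL l))
      (ent 0 n (psumL l) - ∑ j : Fin J, (tsumL l) (beta j n))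
    linarith

end Pool.Agent.Lib.MP_a30514_an
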