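import Mathlib
import Pool.Agent.Lib.MP_a30514_an.EllInf

set_option autoImplicit false
set_option linter.unusedSectionVars false

namespace Pool.Agent.Lib.MP_a30514_an

open scoped ENNReal
open Filter TopologicalSpace

lemma isSeparable_range_compact (a : A2) : IsSeparable (Set.range a.op) := by
  have h : Set.range a.op ⊆ ⋃ n : ℕ, closure (a.op '' Metric.closedBall 0 (n : ℝ)) := by
    rintro _ ⟨x, rfl⟩
    obtain ⟨n, hn⟩ := exists_nat_ge ‖x‖
    rw [Set.mem_iUnion]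
    refine ⟨n, subset_closure ⟨x, ?_, rfl⟩⟩
    simpa using hn
  refine IsSeparable.mono (IsSeparable.iUnion fun n => ?_) h
  have hK : IsCompact (closure (a.op '' Metric.closedBall 0 (n : ℝ))) :=
    IsCompactOperator.isCompact_closure_image_closedBall (f := a.op.toLinearMap) a.compact n
  exact hK.isSeparable

theorem no_resolution2 (r : ℕ → Set ℕ → (Set ℕ × ℕ) → ℂ) (C : ℝ)
    (hadd : ∀ (j : ℕ) (S S' : Set ℕ), Disjoint S S' → ∀ ω, r j (S ∪ S') ω = r j S ω + r j S' ω)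
    (hsum : ∀ (j K : ℕ) (T : Fin K → Set ℕ), (∀ i j, i ≠ j → Disjoint (T i) (T j)) →
      ∀ ω : Fin K → (Set ℕ × ℕ), ∑ i, ‖r j (T i) (ω i)‖ ≤ C)
    (hres : ∀ (S : Set ℕ) (ε : ℝ), 0 < ε → ∃ (M : Finset ℕ) (c : ℕ → ℕ), (∀ n, c n ∈ M) ∧
      ∀ n, ‖S.indicator (1 : ℕ → ℂ) n - ∑ m ∈ M, r m S (c ⁻¹' {m}, n)‖ ≤ ε)
    (hfin : ∀ (m : ℕ) (A' : Finset ℕ) (k : ℕ), ∃ g : A2, ∀ (P : Set ℕ) (n : ℕ),
      ‖r m (↑A' : Set ℕ) (P, n) - g.op (ind P) n‖ ≤ 1 / ((k : ℝ) + 1)) : False := by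
  classical
  set G : Set (ℕ → Bool) :=
    {f | ∀ (j : ℕ) (q : ℝ), 0 < q → ∃ N, ∀ ω, ‖r j (tail f N) ω‖ ≤ q} with hG
  have hGc : Gᶜ.Countable := small_countable r C hsum
  choose g hg using hfin
  set Z : Submodule ℂ E2 := Submodule.span ℂ
    (⋃ x : ℕ × Finset ℕ × ℕ, Set.range (g x.1 x.2.1 x.2.2).op) with hZ
  have hZsep : IsSeparable (Z : Set E2) :=
    IsSeparable.span (IsSeparable.iUnion fun x => isSeparable_range_compact _)
  obtain ⟨c0, hc0, hc1⟩ := hZsep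
  have hZmem : ∀ m A' k x, (g m A' k).op x ∈ Z := fun m A' k x =>
    Submodule.subset_span (Set.mem_iUnion.2 ⟨(m, A', k), ⟨x, rfl⟩⟩)
  have key : ∀ f ∈ G, ∃ y : c0, ∀ n, ‖(AD f).indicator (1 : ℕ → ℂ) n - (y : E2) n‖ ≤ 3 / 8 := by
    intro f hf
    obtain ⟨M, c, hcM, hres1⟩ := hres (AD f) (1 / 12) (by norm_num)
    have hq : (0 : ℝ) < 1 / (12 * ((M.card : ℝ) + 1)) := by positivity
    choose N hN using fun j : ℕ => hf j _ hq
    obtain ⟨k, hk⟩ := exists_nat_one_div_lt hq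
    set z : E2 := ∑ m ∈ M, (g m (head f (N m)) k).op (ind (c ⁻¹' {m})) with hz
    have hzZ : z ∈ Z := Submodule.sum_mem _ fun m _ => hZmem _ _ _ _
    have hcard : (M.card : ℝ) * (1 / (12 * ((M.card : ℝ) + 1))) ≤ 1 / 12 := by
      rw [mul_one_div, div_le_div_iff₀ (by positivity) (by norm_num)]
      linarith
    have hz1 : ∀ n, ‖(AD f).indicator (1 : ℕ → ℂ) n - z n‖ ≤ 1 / 4 := by
      intro n
      have h2 : ∑ m ∈ M, r m (AD f) (c ⁻¹' {m}, n) =
          ∑ m ∈ M, r m (↑(head f (N m)) : Set ℕ) (c ⁻¹' {m}, n) +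
          ∑ m ∈ M, r m (tail f (N m)) (c ⁻¹' {m}, n) := by
        rw [← Finset.sum_add_distrib]
        refine Finset.sum_congr rfl fun m _ => ?_
        rw [← hadd _ _ _ (head_disjoint_tail f (N m)), head_union_tail]
      have h3 : (AD f).indicator (1 : ℕ → ℂ) n - z n =
          ((AD f).indicator (1 : ℕ → ℂ) n - ∑ m ∈ M, r m (AD f) (c ⁻¹' {m}, n)) +
          ∑ m ∈ M, r m (tail f (N m)) (c ⁻¹' {m}, n) +
          ∑ m ∈ M, (r m (↑(head f (N m)) : Set ℕ) (c ⁻¹' {m}, n) -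
            (g m (head f (N m)) k).op (ind (c ⁻¹' {m})) n) := by
        rw [h2, hz, E2.sum_apply, Finset.sum_sub_distrib]
        ring
      rw [h3]
      have e1 := hres1 n
      have e2 : ‖∑ m ∈ M, r m (tail f (N m)) (c ⁻¹' {m}, n)‖ ≤ 1 / 12 := by
        refine (norm_sum_le _ _).trans ?_
        refine (Finset.sum_le_sum fun m _ => hN m _).trans ?_
        rw [Finset.sum_const, nsmul_eq_mul]
        exact hcard
      have e3 : ‖∑ m ∈ M, (r m (↑(head f (N m)) : Set ℕ) (c ⁻¹' {m}, n) -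
            (g m (head f (N m)) k).op (ind (c ⁻¹' {m})) n)‖ ≤ 1 / 12 := by
        refine (norm_sum_le _ _).trans ?_
        refine (Finset.sum_le_sum fun m _ => (hg m _ k _ n).trans hk.le).trans ?_
        rw [Finset.sum_const, nsmul_eq_mul]
        exact hcard
      refine (norm_add_le _ _).trans ?_
      have e4 := norm_add_le ((AD f).indicator (1 : ℕ → ℂ) n - ∑ m ∈ M, r m (AD f) (c ⁻¹' {m}, n))
        (∑ m ∈ M, r m (tail f (N m)) (c ⁻¹' {m}, n))
      linarith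
    have hzc := hc1 hzZ
    rw [Metric.mem_closure_iff] at hzc
    obtain ⟨y, hy, hyz⟩ := hzc (1 / 8) (by norm_num)
    refine ⟨⟨y, hy⟩, fun n => ?_⟩
    rw [dist_eq_norm] at hyz
    have e1 : ‖z n - y n‖ ≤ 1 / 8 := by
      have := E2.norm_apply_le (z - y) n
      rw [lp.coeFn_sub, Pi.sub_apply] at this
      exact this.trans hyz.le
    have e2 : (AD f).indicator (1 : ℕ → ℂ) n - y n =
        ((AD f).indicator (1 : ℕ → ℂ) n - z n) + (z n - y n) := by ring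
    change ‖(AD f).indicator (1 : ℕ → ℂ) n - y n‖ ≤ 3 / 8
    rw [e2]
    refine (norm_add_le _ _).trans ?_
    linarith [hz1 n]
  by_cases hGe : G.Nonempty
  swap
  · rw [Set.not_nonempty_iff_eq_empty] at hGe
    rw [hGe, Set.compl_empty] at hGc
    exact cantor_uncountable hGc
  obtain ⟨f0, hf0⟩ := hGe
  have : Nonempty c0 := ⟨(key f0 hf0).choose⟩
  choose! Φ hΦ using key
  have : Countable c0 := hc0.to_subtype
  apply not_injOn_countable G hGc Φ
  intro f hf g' hg' hfg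
  apply AD_injective
  ext n
  have h1 := hΦ f hf n
  have h2 := hΦ g' hg' n
  rw [hfg] at h1
  have h3 : ‖(AD f).indicator (1 : ℕ → ℂ) n - (AD g').indicator (1 : ℕ → ℂ) n‖ ≤ 3 / 4 := by
    have h4 : (AD f).indicator (1 : ℕ → ℂ) n - (AD g').indicator (1 : ℕ → ℂ) n =
      ((AD f).indicator (1 : ℕ → ℂ) n - (Φ g' : E2) n) -
      ((AD g').indicator (1 : ℕ → ℂ) n - (Φ g' : E2) n) := by
      ring
    rw [h4]
    refine (norm_sub_le _ _).trans ?_
    linarith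
  by_cases c1 : n ∈ AD f <;> by_cases c2 : n ∈ AD g'
  · exact ⟨fun _ => c2, fun _ => c1⟩
  · rw [Set.indicator_of_mem c1, Set.indicator_of_notMem c2] at h3
    norm_num at h3
  · rw [Set.indicator_of_notMem c1, Set.indicator_of_mem c2] at h3
    norm_num at h3
  · exact ⟨fun h => absurd h c1, fun h => absurd h c2⟩

/-- the step function `n ↦ x (c n)` -/
lemma step_apply (M : Finset ℕ) (c : ℕ → ℕ) (hc : ∀ n, c n ∈ M) (x : E2) (n : ℕ) :
    (∑ m ∈ M, x m • ind (c ⁻¹' {m})) n = x (c n) := by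
  classical
  rw [E2.sum_apply, Finset.sum_eq_single (c n)]
  · rw [E2.smul_apply, ind_apply, Set.indicator_of_mem (by simp)]
    simp
  · intro m _ hm
    rw [E2.smul_apply, ind_apply, Set.indicator_of_notMem (by simpa using hm.symm), mul_zero]
  · intro h; exact absurd (hc n) h

/-- the bilinear form `(a, b) ↦ (a 1_P)(n) (b e_0)(m)` -/
noncomputable def beta2 (P : Set ℕ) (n m : ℕ) : Bil A2 := Bil.mk ((kap P n).smulRight (kap {0} m))

lemma beta2_ev (P : Set ℕ) (n m : ℕ) (a b : A2) :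
    (beta2 P n m).ev a b = kap P n a * kap {0} m b := rfl

/-- the bilinear form `(a, b) ↦ ∑_i θ_i (a 1_{P_i})(n_i) (b e_i)(m)` -/
noncomputable def gam2 (K m : ℕ) (θ : Fin K → ℂ) (ω : Fin K → Set ℕ × ℕ) : Bil A2 :=
  ∑ i : Fin K, θ i • post (R2 0 {(i : ℕ)}) (beta2 (ω i).1 (ω i).2 m)

lemma kap_mul_R2 (i m : ℕ) (b : A2) : kap {0} m (b * R2 0 {i}) = kap {i} m b := by
  rw [kap_apply, kap_apply, A2.op_mul, R2_apply, ind_singleton, if_pos rfl, one_smul]

lemma gam2_ev (K m : ℕ) (θ : Fin K → ℂ) (ω : Fin K → Set ℕ × ℕ) (a b : A2) :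
    (gam2 K m θ ω).ev a b = ∑ i : Fin K, θ i * (kap (ω i).1 (ω i).2 a * kap {(i : ℕ)} m b) := by
  rw [gam2, Bil.ev_sum]
  refine Finset.sum_congr rfl fun i _ => ?_
  rw [Bil.ev_smul, post_ev, beta2_ev, kap_mul_R2]

lemma norm_gam2_le (K m : ℕ) (θ : Fin K → ℂ) (hθ : ∀ i, ‖θ i‖ ≤ 1) (ω : Fin K → Set ℕ × ℕ) :
    ‖gam2 K m θ ω‖ ≤ 1 := by
  refine Bil.norm_le _ _ zero_le_one fun a b => ?_
  rw [gam2_ev, one_mul]
  refine (norm_sum_le _ _).trans ?_
  have h1 : ∀ i : Fin K, ‖θ i * (kap (ω i).1 (ω i).2 a * kap {(i : ℕ)} m b)‖ ≤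
      ‖a‖ * ‖kap {(i : ℕ)} m b‖ := by
    intro i
    rw [norm_mul, norm_mul]
    have := hθ i
    have h2 := norm_kap_le (ω i).1 (ω i).2 a
    have h3 : ‖θ i‖ * (‖kap (ω i).1 (ω i).2 a‖ * ‖kap {(i : ℕ)} m b‖) ≤
      1 * (‖a‖ * ‖kap {(i : ℕ)} m b‖) := by gcongr
    linarith
  refine (Finset.sum_le_sum fun i _ => h1 i).trans ?_
  rw [← Finset.mul_sum]
  gcongr
  exact sum_kap_le K m b

lemma sum_beta2_eq (M : Finset ℕ) (c : ℕ → ℕ) (n : ℕ) (a b : A2) :
    ∑ m ∈ M, (beta2 (c ⁻¹' {m}) n m).ev a b =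
      (a.op (∑ m ∈ M, (b.op (ind {0})) m • ind (c ⁻¹' {m}))) n := by
  rw [map_sum, E2.sum_apply]
  refine Finset.sum_congr rfl fun m _ => ?_
  rw [map_smul, E2.smul_apply, beta2_ev, kap_apply, kap_apply]
  ring

lemma sum_beta2_bound (M : Finset ℕ) (c : ℕ → ℕ) (hc : ∀ n, c n ∈ M) (n : ℕ) (a b : A2) :
    ‖∑ m ∈ M, (beta2 (c ⁻¹' {m}) n m).ev a b‖ ≤ ‖a‖ * ‖b‖ := by
  rw [sum_beta2_eq]
  refine (E2.norm_apply_le _ _).trans ((a.norm_apply_le _).trans ?_)
  gcongr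
  refine E2.norm_le _ _ (norm_nonneg _) fun k => ?_
  rw [step_apply M c hc]
  exact norm_kap_le {0} (c k) b

lemma beta2_approx (M : Finset ℕ) (c : ℕ → ℕ) (hc : ∀ n, c n ∈ M) (a b : A2) (δ : ℝ)
    (hδ : 0 ≤ δ) (h : ∀ n, ‖(b.op (ind {0})) n - (b.op (ind {0})) (c n)‖ ≤ δ) (n : ℕ) :
    ‖kap {0} n (a * b) - ∑ m ∈ M, (beta2 (c ⁻¹' {m}) n m).ev a b‖ ≤ ‖a‖ * δ := by
  rw [sum_beta2_eq]
  set y : E2 := ∑ m ∈ M, (b.op (ind {0})) m • ind (c ⁻¹' {m}) with hy
  have h1 : kap {0} n (a * b) - (a.op y) n = (a.op (b.op (ind {0}) - y)) n := by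
    rw [map_sub, lp.coeFn_sub, Pi.sub_apply, kap_apply, A2.op_mul]
  rw [h1]
  refine (E2.norm_apply_le _ _).trans ((a.norm_apply_le _).trans ?_)
  gcongr
  refine E2.norm_le _ _ hδ fun k => ?_
  rw [lp.coeFn_sub, Pi.sub_apply, hy, step_apply M c hc]
  exact h k

lemma exists_partition (L : ℕ) (x : Fin L → E2) (δ : ℝ) (hδ : 0 < δ) :
    ∃ (M : Finset ℕ) (c : ℕ → ℕ), (∀ n, c n ∈ M) ∧ ∀ i n, ‖x i n - x i (c n)‖ ≤ δ := by
  classical
  set g : ℕ → (Fin L → ℂ) := fun n i => x i n with hg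
  have hb : Bornology.IsBounded (Set.range g) := by
    rw [isBounded_iff_forall_norm_le]
    refine ⟨∑ i, ‖x i‖, ?_⟩
    rintro _ ⟨n, rfl⟩
    rw [pi_norm_le_iff_of_nonneg (Finset.sum_nonneg fun _ _ => norm_nonneg _)]
    intro i
    refine (E2.norm_apply_le (x i) n).trans ?_
    exact Finset.single_le_sum (f := fun i => ‖x i‖) (fun _ _ => norm_nonneg _) (Finset.mem_univ i)
  have htb : TotallyBounded (Set.range g) :=
    TotallyBounded.subset subset_closure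
      (Bornology.IsBounded.isCompact_closure hb).totallyBounded
  obtain ⟨t, ht, htf, hcov⟩ := Metric.finite_approx_of_totallyBounded htb δ hδ
  choose! s hs using fun (y : Fin L → ℂ) (hy : y ∈ t) => ht hy
  have h1 : ∀ n, ∃ y ∈ t, dist (g n) y < δ := by
    intro n
    have := hcov ⟨n, rfl⟩
    simpa using this
  choose d hd1 hd2 using h1
  refine ⟨htf.toFinset.image s, fun n => s (d n), fun n => ?_, fun i n => ?_⟩
  · exact Finset.mem_image_of_mem _ (htf.mem_toFinset.2 (hd1 n))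
  · have h2 := hd2 n
    rw [← hs _ (hd1 n)] at h2
    have h3 := dist_le_pi_dist (g n) (g (s (d n))) i
    rw [dist_eq_norm] at h3
    exact h3.trans h2.le

lemma exists_partition_list (l : List (A2 × A2)) (δ : ℝ) (hδ : 0 < δ) :
    ∃ (M : Finset ℕ) (c : ℕ → ℕ), (∀ n, c n ∈ M) ∧
      ∀ p ∈ l, ∀ n, ‖(p.2.op (ind {0})) n - (p.2.op (ind {0})) (c n)‖ ≤ δ := by
  obtain ⟨M, c, h1, h2⟩ := exists_partition l.length (fun i => (l.get i).2.op (ind {0})) δ hδ
  refine ⟨M, c, h1, fun p hp n => ?_⟩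
  obtain ⟨i, rfl⟩ := List.get_of_mem hp
  exact h2 i n

lemma list_approx2 (M : Finset ℕ) (c : ℕ → ℕ) (hc : ∀ n, c n ∈ M) (δ : ℝ) (hδ : 0 ≤ δ)
    (l : List (A2 × A2))
    (h : ∀ p ∈ l, ∀ n, ‖(p.2.op (ind {0})) n - (p.2.op (ind {0})) (c n)‖ ≤ δ) (n : ℕ) :
    ‖kap {0} n (psumL l) - ∑ m ∈ M, (tsumL l) (beta2 (c ⁻¹' {m}) n m)‖ ≤
      (l.map fun p => ‖p.1‖).sum * δ := by
  induction l with
  | nil => simp [psumL, tsumL]
  | cons p l ih =>
    have h1 := beta2_approx M c hc p.1 p.2 δ hδ (h p (by simp)) n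
    have h2 := ih (fun q hq => h q (by simp [hq]))
    have e1 : psumL (p :: l) = p.1 * p.2 + psumL l := by simp [psumL]
    have e2 : tsumL (p :: l) = tens p.1 p.2 + tsumL l := by simp [tsumL]
    rw [e1, e2, map_add]
    have e3 : ∑ m ∈ M, (tens p.1 p.2 + tsumL l) (beta2 (c ⁻¹' {m}) n m) =
        ∑ m ∈ M, (beta2 (c ⁻¹' {m}) n m).ev p.1 p.2 +
          ∑ m ∈ M, (tsumL l) (beta2 (c ⁻¹' {m}) n m) := by
      rw [← Finset.sum_add_distrib]
      rfl
    rw [e3]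
    have e4 : kap {0} n (p.1 * p.2) + kap {0} n (psumL l) -
        (∑ m ∈ M, (beta2 (c ⁻¹' {m}) n m).ev p.1 p.2 +
          ∑ m ∈ M, (tsumL l) (beta2 (c ⁻¹' {m}) n m)) =
        (kap {0} n (p.1 * p.2) - ∑ m ∈ M, (beta2 (c ⁻¹' {m}) n m).ev p.1 p.2) +
        (kap {0} n (psumL l) - ∑ m ∈ M, (tsumL l) (beta2 (c ⁻¹' {m}) n m)) := by ring
    rw [e4]
    refine (norm_add_le _ _).trans ?_
    rw [List.map_cons, List.sum_cons, add_mul]
    linarith

lemma norm_beta2_le (P : Set ℕ) (n m : ℕ) : ‖beta2 P n m‖ ≤ 1 := by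
  refine Bil.norm_le _ _ zero_le_one fun a b => ?_
  rw [beta2_ev, norm_mul, one_mul]
  have h1 := norm_kap_le P n a
  have h2 := norm_kap_le {0} m b
  gcongr

/-- the operator `∑ (b e_0)(m) a` for a list of pairs `(a, b)` -/
noncomputable def gop (m : ℕ) (l : List (A2 × A2)) : A2 := (l.map fun p => kap {0} m p.2 • p.1).sum

lemma gop_apply (m : ℕ) (l : List (A2 × A2)) (P : Set ℕ) (n : ℕ) :
    (gop m l).op (ind P) n = (tsumL l) (beta2 P n m) := by
  induction l with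
  | nil => simp [gop, tsumL]
  | cons p l ih =>
    have e1 : gop m (p :: l) = kap {0} m p.2 • p.1 + gop m l := by simp [gop]
    have e2 : tsumL (p :: l) = tens p.1 p.2 + tsumL l := by simp [tsumL]
    rw [e1, e2, A2.op_add, _root_.add_apply, lp.coeFn_add, Pi.add_apply, ih,
      _root_.add_apply, tens_apply, beta2_ev, A2.op_smul, _root_.smul_apply, E2.smul_apply,
      kap_apply P n]
    ring

/-- `K(ℓ^∞)` is not projective as a right module over itself. -/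
theorem not_right_projective_A2 : ¬ (rightRegular A2).IsProjective.{0, 0, 0} := by
  intro h
  obtain ⟨ρ, C, hC, hρC, h1, h2⟩ := right_consequence A2 h
  have hρ0 : ∀ a b : A2, (ρ (b * a)).1 = 0 := by
    intro a b; rw [h1, rightLin_apply]
  have hρS : ∀ k S, (ρ (R2 k S)).1 = 0 := by
    intro k S; rw [← R2_mul]; exact hρ0 _ _
  set F : A2 → D A2 := fun a => ((ρ a).2 : D A2 × A2).1 with hF
  have hFadd : ∀ a b, F (a + b) = F a + F b := by
    intro a b; simp [hF]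
  have hFnorm : ∀ a, ‖F a‖ ≤ C * ‖a‖ := by
    intro a
    have e1 : ‖F a‖ ≤ ‖((ρ a).2 : D A2 × A2)‖ := norm_fst_le _
    have e2 : ‖((ρ a).2 : D A2 × A2)‖ ≤ ‖ρ a‖ := norm_snd_le (ρ a)
    exact e1.trans (e2.trans (hρC a))
  have hρsum : ∀ (K : ℕ) (T : Fin K → Set ℕ), (ρ (∑ i : Fin K, R2 i (T i))).1 = 0 := by
    intro K T
    rw [map_sum, Prod.fst_sum]
    exact Finset.sum_eq_zero fun i _ => hρS _ _
  have hFmul : ∀ (K : ℕ) (T : Fin K → Set ℕ) (k : Fin K),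
      F (R2 0 (T k)) = ract (R2 0 {(k : ℕ)}) (F (∑ i : Fin K, R2 i (T i))) := by
    intro K T k
    have e1 : ρ (R2 0 (T k)) = rightLin A2 (R2 0 {(k : ℕ)}) (ρ (∑ i : Fin K, R2 i (T i))) := by
      rw [← h1, sum_R2_mul]
    simp only [hF]
    rw [e1, rightLin_apply, hρsum]
    simp [tens_zero_left, ractW_apply]
  set r : ℕ → Set ℕ → (Set ℕ × ℕ) → ℂ := fun m S ω => F (R2 0 S) (beta2 ω.1 ω.2 m) with hr
  refine no_resolution2 r C ?_ ?_ ?_ ?_
  · intro j S S' hSS ω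
    simp only [hr]
    rw [R2_union 0 S S' hSS, hFadd, _root_.add_apply]
  · intro m K T hT ω
    choose θ hθ1 hθ2 using fun i : Fin K => exists_unimod (r m (T i) (ω i))
    have e1 : F (∑ i : Fin K, R2 i (T i)) (gam2 K m θ ω) = ∑ i, (‖r m (T i) (ω i)‖ : ℂ) := by
      rw [gam2, map_sum]
      refine Finset.sum_congr rfl fun i _ => ?_
      rw [map_smul, smul_eq_mul, ← hθ2 i]
      simp only [hr]
      rw [hFmul K T i, ract_apply]
    have e2 : ‖F (∑ i : Fin K, R2 i (T i)) (gam2 K m θ ω)‖ ≤ C := by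
      refine ((F _).le_opNorm _).trans ?_
      have a1 := hFnorm (∑ i : Fin K, R2 i (T i))
      have a2 := norm_sum_R2_le K T hT
      have a3 := norm_gam2_le K m θ hθ1 ω
      calc ‖F (∑ i : Fin K, R2 i (T i))‖ * ‖gam2 K m θ ω‖ ≤ (C * 1) * 1 := by
            gcongr
            exact a1.trans (by gcongr)
        _ = C := by ring
    rw [e1] at e2
    have e3 : ‖∑ i, (‖r m (T i) (ω i)‖ : ℂ)‖ = ∑ i, ‖r m (T i) (ω i)‖ := by
      rw [← Complex.ofReal_sum, Complex.norm_real, Real.norm_eq_abs, abs_of_nonneg]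
      exact Finset.sum_nonneg fun _ _ => norm_nonneg _
    rw [e3] at e2
    exact e2
  · intro S ε hε
    have hmem := ((ρ (R2 0 S)).2).2
    obtain ⟨l, hl1, hl2⟩ := approx _ hmem (ε / 4) (by positivity)
    have ht : ((ρ (R2 0 S)).2 : D A2 × A2).2 = R2 0 S := by
      have := h2 (R2 0 S)
      rw [prodMap_apply, hρS, zero_add] at this
      exact this
    set B : ℝ := (l.map fun p => ‖p.1‖).sum with hB
    have hB0 : 0 ≤ B := by
      rw [hB]
      apply List.sum_nonneg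
      intro x hx
      rw [List.mem_map] at hx
      obtain ⟨p, _, rfl⟩ := hx
      exact norm_nonneg _
    obtain ⟨M, c, hcM, hc⟩ := exists_partition_list l (ε / (4 * (B + 1))) (by positivity)
    refine ⟨M, c, hcM, fun n => ?_⟩
    have a1 : ‖kap {0} n (R2 0 S - psumL l)‖ ≤ ε / 4 := by
      refine (norm_kap_le _ _ _).trans ?_
      rw [← ht]
      exact hl2.le
    have a2 : ‖(F (R2 0 S) - tsumL l) (∑ m ∈ M, beta2 (c ⁻¹' {m}) n m)‖ ≤ ε / 4 := by
      refine ((F (R2 0 S) - tsumL l).le_opNorm _).trans ?_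
      have b1 : ‖∑ m ∈ M, beta2 (c ⁻¹' {m}) n m‖ ≤ 1 := by
        refine Bil.norm_le _ _ zero_le_one fun a b => ?_
        rw [Bil.ev_sum, one_mul]
        exact sum_beta2_bound M c hcM n a b
      calc ‖F (R2 0 S) - tsumL l‖ * ‖∑ m ∈ M, beta2 (c ⁻¹' {m}) n m‖ ≤ (ε / 4) * 1 := by
            gcongr
        _ = ε / 4 := by ring
    have a3 := list_approx2 M c hcM (ε / (4 * (B + 1))) (by positivity) l hc n
    have a3' : B * (ε / (4 * (B + 1))) ≤ ε / 4 := by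
      rw [mul_div_assoc', div_le_div_iff₀ (by positivity) (by norm_num)]
      nlinarith
    have a4 : S.indicator (1 : ℕ → ℂ) n - ∑ m ∈ M, r m S (c ⁻¹' {m}, n) =
        kap {0} n (R2 0 S - psumL l) +
          (kap {0} n (psumL l) - ∑ m ∈ M, (tsumL l) (beta2 (c ⁻¹' {m}) n m))
          - (F (R2 0 S) - tsumL l) (∑ m ∈ M, beta2 (c ⁻¹' {m}) n m) := by
      have e0 : kap {0} n (R2 0 S) = S.indicator (1 : ℕ → ℂ) n := by
        rw [kap_apply, R2_apply, E2.smul_apply, ind_singleton, if_pos rfl, one_mul, ind_apply]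
      rw [map_sub, e0, _root_.sub_apply, map_sum, map_sum]
      simp only [hr]
      ring
    rw [a4]
    refine (norm_sub_le _ _).trans ?_
    have a5 := norm_add_le (kap {0} n (R2 0 S - psumL l))
      (kap {0} n (psumL l) - ∑ m ∈ M, (tsumL l) (beta2 (c ⁻¹' {m}) n m))
    linarith
  · intro m A' k
    have hmem := ((ρ (R2 0 (↑A' : Set ℕ))).2).2
    have hk : (0 : ℝ) < 1 / ((k : ℝ) + 1) := by positivity
    obtain ⟨l, hl1, hl2⟩ := approx _ hmem _ hk
    refine ⟨gop m l, fun P n => ?_⟩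
    rw [gop_apply]
    have e1 : r m (↑A' : Set ℕ) (P, n) - (tsumL l) (beta2 P n m) =
        (F (R2 0 (↑A' : Set ℕ)) - tsumL l) (beta2 P n m) := by
      rw [_root_.sub_apply]
    rw [e1]
    refine ((F (R2 0 (↑A' : Set ℕ)) - tsumL l).le_opNorm _).trans ?_
    calc ‖F (R2 0 (↑A' : Set ℕ)) - tsumL l‖ * ‖beta2 P n m‖ ≤ (1 / ((k : ℝ) + 1)) * 1 := by
          have b1 := norm_beta2_le P n m
          gcongr
      _ = 1 / ((k : ℝ) + 1) := mul_one _

end Pool.Agent.Lib.MP_a30514_an
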